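import Mathlib

/-!
# Highest and lowest connecting lines at an abscissa

`P` is a finite set of points `(u i, v i)` of the plane.  For a pair `q` of points with different
abscissas, `sl q` and `ic q` are the slope and the intercept of the line through the two points.
-/

set_option autoImplicit false
set_option linter.unusedSectionVars false
open Finset Classical

namespace Pool.Agent.Dirac86.KM

variable {ι : Type*}

/-- slope of the line through two points -/
noncomputable def sl (u v : ι → ℝ) (q : ι × ι) : ℝ := (v q.2 - v q.1) / (u q.2 - u q.1)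

/-- intercept of the line through two points -/
noncomputable def ic (u v : ι → ℝ) (q : ι × ι) : ℝ := v q.1 - sl u v q * u q.1

/-- the pairs of points with different abscissas -/
noncomputable def Q (P : Finset ι) (u : ι → ℝ) : Finset (ι × ι) :=
  (P ×ˢ P).filter (fun q => u q.1 ≠ u q.2)

theorem mem_Q {P : Finset ι} {u : ι → ℝ} {q : ι × ι} :
    q ∈ Q P u ↔ (q.1 ∈ P ∧ q.2 ∈ P) ∧ u q.1 ≠ u q.2 := by
  simp [Q]

/-- `i` is on the line of the pair `q` -/
def onl (u v : ι → ℝ) (q : ι × ι) (i : ι) : Prop := v i = sl u v q * u i + ic u v q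

theorem onl_left {u v : ι → ℝ} {q : ι × ι} : onl u v q q.1 := by
  unfold onl ic; ring

theorem onl_right {u v : ι → ℝ} {q : ι × ι} (h : u q.1 ≠ u q.2) : onl u v q q.2 := by
  have h1 : u q.2 - u q.1 ≠ 0 := sub_ne_zero.mpr h.symm
  unfold onl ic sl
  field_simp
  ring

/-- the exceptional abscissas -/
noncomputable def Bd (P : Finset ι) (u v : ι → ℝ) : Finset ℝ :=
  P.image u ∪ ((Q P u) ×ˢ (Q P u)).image
    (fun r => (ic u v r.2 - ic u v r.1) / (sl u v r.1 - sl u v r.2))

theorem gen_col {P : Finset ι} {u v : ι → ℝ} {x : ℝ} (hx : x ∉ Bd P u v) {i : ι} (hi : i ∈ P) :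
    u i ≠ x := by
  intro h
  apply hx
  unfold Bd
  rw [mem_union]
  exact Or.inl (mem_image.mpr ⟨i, hi, h⟩)

theorem gen_cross {P : Finset ι} {u v : ι → ℝ} {x : ℝ} (hx : x ∉ Bd P u v) {q r : ι × ι}
    (hq : q ∈ Q P u) (hr : r ∈ Q P u)
    (h : sl u v q * x + ic u v q = sl u v r * x + ic u v r) :
    sl u v q = sl u v r ∧ ic u v q = ic u v r := by
  by_cases h1 : sl u v q = sl u v r
  · refine ⟨h1, ?_⟩
    rw [h1] at h
    linarith
  · exfalso
    apply hx
    unfold Bd
    rw [mem_union]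
    right
    rw [mem_image]
    refine ⟨(q, r), mem_product.mpr ⟨hq, hr⟩, ?_⟩
    have h2 : sl u v q - sl u v r ≠ 0 := sub_ne_zero.mpr h1
    simp only
    rw [div_eq_iff h2]
    linarith

/-- the line of `q` is the highest (`η = 1`) or the lowest (`η = -1`) at the abscissa `x` -/
def ExtAt (P : Finset ι) (u v : ι → ℝ) (η x : ℝ) (q : ι × ι) : Prop :=
  q ∈ Q P u ∧ ∀ r ∈ Q P u, η * (sl u v r * x + ic u v r) < η * (sl u v q * x + ic u v q) ∨
    (sl u v r = sl u v q ∧ ic u v r = ic u v q)

theorem ext_exists {P : Finset ι} {u v : ι → ℝ} (hQ : (Q P u).Nonempty) {η x : ℝ} (hη : η ≠ 0)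
    (hx : x ∉ Bd P u v) : ∃ q, ExtAt P u v η x q := by
  obtain ⟨q, hq, hm⟩ := exists_max_image (Q P u) (fun r => η * (sl u v r * x + ic u v r)) hQ
  refine ⟨q, hq, fun r hr => ?_⟩
  rcases lt_or_eq_of_le (hm r hr) with h | h
  · exact Or.inl h
  · exact Or.inr (gen_cross hx hr hq (mul_left_cancel₀ hη h))

theorem ext_key {P : Finset ι} {u v : ι → ℝ} {η x : ℝ} {q : ι × ι} (h : ExtAt P u v η x q)
    {a s : ι} (ha : a ∈ P) (hs : s ∈ P) (hl : onl u v q a) (hus : u s ≠ u a)
    (hsl : ¬ onl u v q s) :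
    η * (v s - (sl u v q * u s + ic u v q)) * ((x - u a) * (u s - u a)) < 0 := by
  have hr : (a, s) ∈ Q P u := mem_Q.mpr ⟨⟨ha, hs⟩, hus.symm⟩
  rcases h.2 (a, s) hr with h1 | h1
  · have h2 : u s - u a ≠ 0 := sub_ne_zero.mpr hus
    have h3 : sl u v (a, s) * x + ic u v (a, s) = v a + (v s - v a) / (u s - u a) * (x - u a) := by
      unfold ic sl; simp only; ring
    have h4 : v a = sl u v q * u a + ic u v q := hl
    rw [h3] at h1
    have h5 : 0 < (u s - u a) ^ 2 := by positivity
    have h6 : (v s - v a) / (u s - u a) * (u s - u a) = v s - v a := div_mul_cancel₀ _ h2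
    set k := (v s - v a) / (u s - u a) with hk
    have h7 : v s = v a + k * (u s - u a) := by linarith
    have h8 : η * (v s - (sl u v q * u s + ic u v q)) * ((x - u a) * (u s - u a)) =
        (η * (v a + k * (x - u a)) - η * (sl u v q * x + ic u v q)) * (u s - u a) ^ 2 := by
      rw [h7]
      have : ic u v q = v a - sl u v q * u a := by linarith
      rw [this]
      ring
    rw [h8]
    exact mul_neg_of_neg_of_pos (by linarith) h5
  · exfalso
    apply hsl
    have h2 : onl u v (a, s) s := onl_right (q := (a, s)) hus.symm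
    unfold onl at h2 ⊢
    rw [h1.1, h1.2] at h2
    exact h2

/-- a middle point of a line which is extreme at `x` is alone in its column -/
theorem ext_mid {P : Finset ι} {u v : ι → ℝ} (inj : ∀ i ∈ P, ∀ j ∈ P, u i = u j → v i = v j → i = j)
    {η x : ℝ} {q : ι × ι} (h : ExtAt P u v η x q)
    {a b c : ι} (ha : a ∈ P) (hb : b ∈ P) (hc : c ∈ P) (la : onl u v q a) (lb : onl u v q b)
    (lc : onl u v q c) (h1 : 0 < (u a - u c) * (u c - x) * (u a - x))
    (h2 : 0 < (u c - u b) * (u b - x) * (u c - x)) :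
    ∀ s ∈ P, u s = u c → s = c := by
  intro s hs hsc
  by_contra hne
  have hsl : ¬ onl u v q s := by
    intro hsl
    apply hne
    refine inj s hs c hc hsc ?_
    unfold onl at hsl lc
    rw [hsl, lc, hsc]
  have hca : u s ≠ u a := by
    intro h'
    rw [← h', hsc] at h1
    simp at h1
  have hcb : u s ≠ u b := by
    intro h'
    rw [← h', hsc] at h2
    simp at h2
  have k1 := ext_key h ha hs la hca hsl
  have k2 := ext_key h hb hs lb hcb hsl
  rw [hsc] at k1 k2
  set δ := η * (v s - (sl u v q * u c + ic u v q)) with hδ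
  have k3 : 0 < δ ^ 2 * (((x - u a) * (u c - u a)) * ((x - u b) * (u c - u b))) := by
    have := mul_pos_of_neg_of_neg k1 k2
    calc (0:ℝ) < _ := this
      _ = _ := by ring
  have k4 : 0 < ((x - u a) * (u c - u a)) * ((x - u b) * (u c - u b)) := by
    by_contra hcon
    push Not at hcon
    have := mul_nonpos_of_nonneg_of_nonpos (sq_nonneg δ) hcon
    linarith
  have k5 := mul_pos h1 h2
  have k6 : (u a - u c) * (u c - x) * (u a - x) * ((u c - u b) * (u b - x) * (u c - x)) =
      -((u c - x) ^ 2 * (((x - u a) * (u c - u a)) * ((x - u b) * (u c - u b)))) := by ring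
  rw [k6] at k5
  have k7 := mul_nonneg (sq_nonneg (u c - x)) k4.le
  linarith

theorem cut_lt {x a c : ℝ} (ha : a ≠ x) (hc : c ≠ x) (h : 1 / (a - x) < 1 / (c - x)) :
    0 < (a - c) * (c - x) * (a - x) := by
  have h1 : a - x ≠ 0 := sub_ne_zero.mpr ha
  have h2 : c - x ≠ 0 := sub_ne_zero.mpr hc
  have h3 : 0 < (1 / (c - x) - 1 / (a - x)) * ((c - x) ^ 2 * (a - x) ^ 2) := by
    apply mul_pos (by linarith)
    positivity
  have h4 : (1 / (c - x) - 1 / (a - x)) * ((c - x) ^ 2 * (a - x) ^ 2) =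
      (a - c) * (c - x) * (a - x) := by
    field_simp
    ring
  rwa [h4] at h3

/-- three points of an extreme line : one of them is alone in its column, and it is not the first
one in the order cut at `x` -/
theorem ext_three {P : Finset ι} {u v : ι → ℝ}
    (inj : ∀ i ∈ P, ∀ j ∈ P, u i = u j → v i = v j → i = j)
    {η x : ℝ} {q : ι × ι} (h : ExtAt P u v η x q) (hx : ∀ i ∈ P, u i ≠ x)
    {a b c : ι} (ha : a ∈ P) (hb : b ∈ P) (hc : c ∈ P) (la : onl u v q a) (lb : onl u v q b)
    (lc : onl u v q c) (hab : a ≠ b) (hac : a ≠ c) (hbc : b ≠ c) :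
    ∃ m ∈ P, (∀ s ∈ P, u s = u m → s = m) ∧ ∃ k ∈ P, u k ≠ u m ∧
      1 / (u k - x) < 1 / (u m - x) := by
  have hu : ∀ i ∈ P, ∀ j ∈ P, onl u v q i → onl u v q j → i ≠ j → u i ≠ u j := by
    intro i hi j hj li lj hij he
    apply hij
    refine inj i hi j hj he ?_
    unfold onl at li lj
    rw [li, lj, he]
  have ht : ∀ i ∈ P, ∀ j ∈ P, u i ≠ u j → 1 / (u i - x) ≠ 1 / (u j - x) := by
    intro i hi j hj hij he
    apply hij
    have h1 : u i - x ≠ 0 := sub_ne_zero.mpr (hx i hi)
    have h2 : u j - x ≠ 0 := sub_ne_zero.mpr (hx j hj)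
    rw [one_div, one_div, inv_inj] at he
    linarith
  have main : ∀ i j k : ι, i ∈ P → j ∈ P → k ∈ P → onl u v q i → onl u v q j → onl u v q k →
      1 / (u i - x) < 1 / (u j - x) → 1 / (u j - x) < 1 / (u k - x) →
      ∃ m ∈ P, (∀ s ∈ P, u s = u m → s = m) ∧ ∃ k ∈ P, u k ≠ u m ∧
        1 / (u k - x) < 1 / (u m - x) := by
    intro i j k hi hj hk li lj lk h1 h2
    refine ⟨j, hj, ?_, i, hi, ?_, h1⟩
    · exact ext_mid inj h hi hk hj li lk lj (cut_lt (hx i hi) (hx j hj) h1)
        (cut_lt (hx j hj) (hx k hk) h2)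
    · intro he
      rw [he] at h1
      exact lt_irrefl _ h1
  have d1 := ht a ha b hb (hu a ha b hb la lb hab)
  have d2 := ht a ha c hc (hu a ha c hc la lc hac)
  have d3 := ht b hb c hc (hu b hb c hc lb lc hbc)
  rcases lt_or_gt_of_ne d1 with e1 | e1 <;> rcases lt_or_gt_of_ne d2 with e2 | e2 <;>
    rcases lt_or_gt_of_ne d3 with e3 | e3
  · exact main a b c ha hb hc la lb lc e1 e3
  · exact main a c b ha hc hb la lc lb e2 e3
  · exact absurd (e1.trans e3) (not_lt.mpr e2.le)
  · exact main c a b hc ha hb lc la lb e2 e1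
  · exact main b a c hb ha hc lb la lc e1 e2
  · exact absurd (e1.trans e2) (not_lt.mpr e3.le)
  · exact main b c a hb hc ha lb lc la e3 e2
  · exact main c b a hc hb ha lc lb la e3 e1

/-- two points in each of two columns: two connecting lines -/
theorem two_lines {P : Finset ι} {u v : ι → ℝ} {a b b' : ι} (ha : a ∈ P) (hb : b ∈ P)
    (hb' : b' ∈ P) (hab : u a ≠ u b) (hbb : u b = u b') (hv : v b ≠ v b') :
    ∃ q ∈ Q P u, ∃ r ∈ Q P u, ¬ (sl u v r = sl u v q ∧ ic u v r = ic u v q) := by
  refine ⟨(a, b), mem_Q.mpr ⟨⟨ha, hb⟩, hab⟩, (a, b'), mem_Q.mpr ⟨⟨ha, hb'⟩, hbb ▸ hab⟩, ?_⟩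
  rintro ⟨h1, h2⟩
  have e1 : onl u v (a, b) b := onl_right (q := (a, b)) hab
  have e2 : onl u v (a, b') b' := onl_right (q := (a, b')) (by simpa [← hbb] using hab)
  unfold onl at e1 e2
  rw [h1, h2, ← hbb] at e2
  exact hv (by rw [e1, e2])

/-- if the highest and the lowest line are always one of two given lines then the lines form a
pencil -/
theorem pencil_of_two {P : Finset ι} {u v : ι → ℝ} {m1 c1 m2 c2 : ℝ}
    (hne : ¬ (m1 = m2 ∧ c1 = c2))
    (h : ∀ x ∉ Bd P u v, ∀ r ∈ Q P u,
      (sl u v r * x + ic u v r - (m1 * x + c1)) * (sl u v r * x + ic u v r - (m2 * x + c2)) ≤ 0)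
    {a a' b b' : ι} (ha : a ∈ P) (ha' : a' ∈ P) (hb : b ∈ P) (hb' : b' ∈ P)
    (haa : u a = u a') (hbb : u b = u b') (hab : u a ≠ u b) (hva : v a ≠ v a')
    (hvb : v b ≠ v b') : False := by
  -- all lines are on the line through (m1, c1), (m2, c2)
  have key : ∀ r ∈ Q P u, (sl u v r - m1) * (ic u v r - c2) - (sl u v r - m2) * (ic u v r - c1)
      = 0 := by
    intro r hr
    set p := sl u v r with hp
    set s := ic u v r with hs
    have hdense : Dense ((↑(Bd P u v) : Set ℝ)ᶜ) :=
      (Set.Countable.dense_compl (𝕜 := ℝ) (Bd P u v).countable_toSet)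
    have hclosed : IsClosed {x : ℝ | (p * x + s - (m1 * x + c1)) * (p * x + s - (m2 * x + c2))
        ≤ 0} := isClosed_le (by fun_prop) continuous_const
    have hall : ∀ x : ℝ, (p * x + s - (m1 * x + c1)) * (p * x + s - (m2 * x + c2)) ≤ 0 := by
      intro x
      have h1 : ((↑(Bd P u v) : Set ℝ)ᶜ) ⊆
          {x : ℝ | (p * x + s - (m1 * x + c1)) * (p * x + s - (m2 * x + c2)) ≤ 0} := by
        intro y hy
        exact h y (by simpa using hy) r hr
      have h2 := hclosed.closure_subset_iff.mpr h1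
      rw [hdense.closure_eq] at h2
      exact h2 (Set.mem_univ x)
    have hd := discrim_le_zero_of_nonpos (a := (p - m1) * (p - m2))
      (b := (p - m1) * (s - c2) + (p - m2) * (s - c1)) (c := (s - c1) * (s - c2)) (by
        intro x
        have := hall x
        calc _ = (p * x + s - (m1 * x + c1)) * (p * x + s - (m2 * x + c2)) := by ring
          _ ≤ 0 := this)
    unfold discrim at hd
    have h3 : ((p - m1) * (s - c2) - (p - m2) * (s - c1)) ^ 2 ≤ 0 := by
      calc _ = ((p - m1) * (s - c2) + (p - m2) * (s - c1)) ^ 2 -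
            4 * ((p - m1) * (p - m2)) * ((s - c1) * (s - c2)) := by ring
        _ ≤ 0 := hd
    exact pow_eq_zero_iff (two_ne_zero) |>.mp (le_antisymm h3 (sq_nonneg _))
  have heq : ∀ i ∈ P, ∀ j ∈ P, u i = u a → u j = u b →
      (v j - v i) * (c1 - c2) + (v i * u b - v j * u a) * (m2 - m1) =
        (m2 * c1 - m1 * c2) * (u b - u a) := by
    intro i hi j hj hia hjb
    have h1 := key (i, j) (mem_Q.mpr ⟨⟨hi, hj⟩, by simp only [hia, hjb]; exact hab⟩)
    have h2 : u b - u a ≠ 0 := sub_ne_zero.mpr hab.symm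
    have h3 : sl u v (i, j) * (u b - u a) = v j - v i := by
      unfold sl; simp only [hia, hjb]; exact div_mul_cancel₀ _ h2
    have h4 : ic u v (i, j) = v i - sl u v (i, j) * u a := by unfold ic; simp only [hia]
    set k := sl u v (i, j) with hk
    rw [h4] at h1
    have h5 : v j = v i + k * (u b - u a) := by linarith
    rw [h5]
    linear_combination (u b - u a) * h1
  have g1 := heq a ha b hb rfl rfl
  have g2 := heq a' ha' b hb haa.symm rfl
  have g3 := heq a ha b' hb' rfl hbb.symm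
  have k1 : (v a - v a') * ((m2 - m1) * u b - (c1 - c2)) = 0 := by linear_combination g1 - g2
  have k2 : (v b - v b') * ((c1 - c2) - (m2 - m1) * u a) = 0 := by linear_combination g1 - g3
  have k3 := (mul_eq_zero.mp k1).resolve_left (sub_ne_zero.mpr hva)
  have k4 := (mul_eq_zero.mp k2).resolve_left (sub_ne_zero.mpr hvb)
  have k5 : (m2 - m1) * (u b - u a) = 0 := by linear_combination k3 + k4
  have k6 := (mul_eq_zero.mp k5).resolve_right (sub_ne_zero.mpr hab.symm)
  apply hne
  rw [k6] at k3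
  exact ⟨by linarith, by linarith⟩

end Pool.Agent.Dirac86.KM
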