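import Mathlib
import Pool.Agent.Dirac80.Defs
import Pool.Agent.Dirac80.Parity
import Pool.Agent.Dirac80.EvenB
import Pool.Agent.Dirac80.EvenC
import Pool.Agent.Dirac86.Ext

/-!
# Ordinary lines attached to a point
-/

set_option autoImplicit false
set_option linter.unusedSectionVars false
open Finset Classical

namespace Pool.Agent.Dirac86.KM

open Pool.Agent.Dirac80 (Lin Ln mem_Ln Pl area pl_ext exists_of_area collinear_of_area
  area_of_collinear connectingLines mem_connecting connecting_eq Col col_lin tr tr_card mem_tr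
  tr_connecting double_count ordinary_eq)
open Pool.Agent.Dirac80b

section plane

variable (S : Finset Pl)

/-- the points of `S` are on one side (`ε = 1` or `ε = -1`) -/
def side (ε : ℝ) (a b c p : Pl) : Prop :=
  ∀ s ∈ S, 0 ≤ ε * (area a b s * area a b p * area c p s)

/-- `S` is contained in one of the four closed triangles of the projective plane with vertices
`p, a, b` -/
def att (p a b : Pl) : Prop :=
  (side S 1 a b b p ∨ side S (-1) a b b p) ∧ (side S 1 a b a p ∨ side S (-1) a b a p)

theorem area_eq_zero_of {a b p p' : Pl} (h : area a b p ≠ 0) (h1 : area a p p' = 0)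
    (h2 : area b p p' = 0) : p = p' := by
  unfold area at h h1 h2
  have e0 : (p' 0 - p 0) * ((b 0 - a 0) * (p 1 - a 1) - (b 1 - a 1) * (p 0 - a 0)) = 0 := by
    linear_combination (p 0 - b 0) * h1 - (p 0 - a 0) * h2
  have e1 : (p' 1 - p 1) * ((b 0 - a 0) * (p 1 - a 1) - (b 1 - a 1) * (p 0 - a 0)) = 0 := by
    linear_combination (p 1 - b 1) * h1 - (p 1 - a 1) * h2
  have f0 := (mul_eq_zero.mp e0).resolve_right h
  have f1 := (mul_eq_zero.mp e1).resolve_right h
  exact pl_ext (by linarith) (by linarith)

theorem side_zero {ε : ℝ} (hε : ε ≠ 0) {a b c p p' : Pl} (hp : p ∈ S) (hp' : p' ∈ S)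
    (n : area a b p ≠ 0) (n' : area a b p' ≠ 0) (h : side S ε a b c p) (h' : side S ε a b c p') :
    area c p p' = 0 := by
  have h1 := h p' hp'
  have h2 := h' p hp
  have e : area c p' p = - area c p p' := by unfold area; ring
  rw [e] at h2
  have h3 : ε * (area a b p' * area a b p * area c p p') = 0 := by
    apply le_antisymm _ h1
    have : ε * (area a b p * area a b p' * -area c p p') =
      -(ε * (area a b p' * area a b p * area c p p')) := by ring
    linarith
  have h4 := (mul_eq_zero.mp h3).resolve_left hε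
  exact (mul_eq_zero.mp h4).resolve_left (mul_ne_zero n' n)

theorem att_card (a b : Pl) :
    (S.filter (fun p => area a b p ≠ 0 ∧ att S p a b)).card ≤ 4 := by
  have sub : S.filter (fun p => area a b p ≠ 0 ∧ att S p a b) ⊆
      (S.filter (fun p => area a b p ≠ 0 ∧ side S 1 a b b p ∧ side S 1 a b a p) ∪
       S.filter (fun p => area a b p ≠ 0 ∧ side S 1 a b b p ∧ side S (-1) a b a p)) ∪
      (S.filter (fun p => area a b p ≠ 0 ∧ side S (-1) a b b p ∧ side S 1 a b a p) ∪
       S.filter (fun p => area a b p ≠ 0 ∧ side S (-1) a b b p ∧ side S (-1) a b a p)) := by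
    intro p hp
    rw [mem_filter] at hp
    obtain ⟨h1, h2, h3, h4⟩ := hp
    simp only [mem_union, mem_filter]
    rcases h3 with h3 | h3 <;> rcases h4 with h4 | h4 <;> simp [h1, h2, h3, h4]
  have one : ∀ ε ε' : ℝ, ε ≠ 0 → ε' ≠ 0 →
      (S.filter (fun p => area a b p ≠ 0 ∧ side S ε a b b p ∧ side S ε' a b a p)).card ≤ 1 := by
    intro ε ε' hε hε'
    rw [card_le_one]
    intro p hp p' hp'
    rw [mem_filter] at hp hp'
    obtain ⟨h1, h2, h3, h4⟩ := hp
    obtain ⟨h1', h2', h3', h4'⟩ := hp'
    exact area_eq_zero_of h2 (side_zero S hε' h1 h1' h2 h2' h4 h4')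
      (side_zero S hε h1 h1' h2 h2' h3 h3')
  have h1 := one 1 1 (by norm_num) (by norm_num)
  have h2 := one 1 (-1) (by norm_num) (by norm_num)
  have h3 := one (-1) 1 (by norm_num) (by norm_num)
  have h4 := one (-1) (-1) (by norm_num) (by norm_num)
  have h5 := card_le_card sub
  have h6 := card_union_le
    (S.filter (fun p => area a b p ≠ 0 ∧ side S 1 a b b p ∧ side S 1 a b a p) ∪
       S.filter (fun p => area a b p ≠ 0 ∧ side S 1 a b b p ∧ side S (-1) a b a p))
    (S.filter (fun p => area a b p ≠ 0 ∧ side S (-1) a b b p ∧ side S 1 a b a p) ∪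
       S.filter (fun p => area a b p ≠ 0 ∧ side S (-1) a b b p ∧ side S (-1) a b a p))
  have h7 := card_union_le
    (S.filter (fun p => area a b p ≠ 0 ∧ side S 1 a b b p ∧ side S 1 a b a p))
    (S.filter (fun p => area a b p ≠ 0 ∧ side S 1 a b b p ∧ side S (-1) a b a p))
  have h8 := card_union_le
    (S.filter (fun p => area a b p ≠ 0 ∧ side S (-1) a b b p ∧ side S 1 a b a p))
    (S.filter (fun p => area a b p ≠ 0 ∧ side S (-1) a b b p ∧ side S (-1) a b a p))
  omega

theorem side_comm {ε : ℝ} {a b c p : Pl} (h : side S ε a b c p) : side S ε b a c p := by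
  intro s hs
  have := h s hs
  have e1 : area b a s = -area a b s := by unfold area; ring
  have e2 : area b a p = -area a b p := by unfold area; ring
  rw [e1, e2]
  calc 0 ≤ _ := this
    _ = _ := by ring

theorem att_comm {p a b : Pl} (h : att S p a b) : att S p b a :=
  ⟨h.2.imp (side_comm S) (side_comm S), h.1.imp (side_comm S) (side_comm S)⟩

/-- the ordinary lines attached to `p` -/
noncomputable def rk (p : Pl) : Finset (Finset Pl) :=
  (connectingLines S).filter (fun T => T.card = 2 ∧ p ∉ T ∧ ∃ a b, T = {a, b} ∧ att S p a b)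

theorem rk_sum : ∑ p ∈ S, (rk S p).card ≤
    4 * ((connectingLines S).filter (fun T => T.card = 2)).card := by
  unfold rk
  simp only [card_filter]
  rw [Finset.sum_comm, Finset.mul_sum]
  refine Finset.sum_le_sum (fun T hT => ?_)
  rw [← card_filter]
  by_cases h2 : T.card = 2
  · rw [if_pos h2]
    obtain ⟨a, b, hab, rfl⟩ := card_eq_two.mp h2
    refine le_trans (card_le_card ?_) (att_card S a b)
    intro p hp
    rw [mem_filter] at hp ⊢
    obtain ⟨hpS, -, hpT, c, d, hcd, hatt⟩ := hp
    refine ⟨hpS, ?_, ?_⟩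
    · intro h0
      have hne : a ≠ b := hab
      have := (mem_connecting.mp hT).2.2.2 p hpS
        (by
          have := Pool.Agent.Dirac80.span_of_area hne h0
          simpa using this)
      exact hpT this
    · have hac : a = c ∧ b = d ∨ a = d ∧ b = c := by
        have h1 : a ∈ ({c, d} : Finset Pl) := by rw [← hcd]; simp
        have h2 : b ∈ ({c, d} : Finset Pl) := by rw [← hcd]; simp
        rw [mem_insert, mem_singleton] at h1 h2
        rcases h1 with h1 | h1 <;> rcases h2 with h2 | h2
        · exact absurd (h1.trans h2.symm) hab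
        · exact Or.inl ⟨h1, h2⟩
        · exact Or.inr ⟨h1, h2⟩
        · exact absurd (h1.trans h2.symm) hab
      rcases hac with ⟨rfl, rfl⟩ | ⟨rfl, rfl⟩
      · exact hatt
      · exact att_comm S hatt
  · rw [if_neg h2]
    simp only [mul_zero, nonpos_iff_eq_zero, card_eq_zero]
    ext p
    simp [h2]

end plane

end Pool.Agent.Dirac86.KM
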