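import Mathlib

/-!
# Two counting lemmas for finite sets of reals
-/

set_option autoImplicit false
open Finset Classical

namespace Pool.Agent.Dirac86

section comb

variable {ι : Type*}

/-- the elements of `K` strictly between two values of `s` on `A` -/
noncomputable def inner (A : Finset ι) (s : ι → ℝ) (K : Finset ℝ) : Finset ℝ :=
  K.filter (fun x => (∃ a ∈ A, s a < x) ∧ ∃ a ∈ A, x < s a)

theorem mem_inner {A : Finset ι} {s : ι → ℝ} {K : Finset ℝ} {x : ℝ} :
    x ∈ inner A s K ↔ x ∈ K ∧ (∃ a ∈ A, s a < x) ∧ ∃ a ∈ A, x < s a := by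
  simp [inner]

theorem top_two (A : Finset ι) (s : ι → ℝ) (hs : ∀ i ∈ A, ∀ j ∈ A, s i = s j → i = j)
    (m : ι) (hm : m ∈ A) (hmax : ∀ x ∈ A, s x ≤ s m) (h : 2 ≤ A.card) :
    ∃ a ∈ A.erase m, s a < s m ∧ (∀ x ∈ A.erase m, s x ≤ s a) := by
  obtain ⟨a, ha, hamax⟩ := exists_max_image (A.erase m) s
    (card_pos.mp (by rw [card_erase_of_mem hm]; omega))
  rw [mem_erase] at ha
  refine ⟨a, mem_erase.mpr ha, lt_of_le_of_ne (hmax a ha.2) (fun h => ha.1 (hs a ha.2 m hm h)),
    hamax⟩

theorem inner_split (A : Finset ι) (s : ι → ℝ) (K : Finset ℝ) (A' : Finset ι) (hA' : A' ⊆ A)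
    (a m : ι) (ha : a ∈ A) (hm : m ∈ A) (hle : ∀ x ∈ A', s x ≤ s a) :
    (inner A' s K).card + (K.filter (fun x => s a < x ∧ x < s m)).card ≤ (inner A s K).card := by
  rw [← card_union_of_disjoint]
  · apply card_le_card
    intro x hx
    rw [mem_union, mem_inner, mem_filter] at hx
    rw [mem_inner]
    rcases hx with ⟨h1, ⟨b, hb, h2⟩, ⟨d, hd, h3⟩⟩ | ⟨h1, h2, h3⟩
    · exact ⟨h1, ⟨b, hA' hb, h2⟩, ⟨d, hA' hd, h3⟩⟩
    · exact ⟨h1, ⟨a, ha, h2⟩, ⟨m, hm, h3⟩⟩
  · rw [Finset.disjoint_left]
    intro x hx hx'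
    rw [mem_inner] at hx
    rw [mem_filter] at hx'
    obtain ⟨_, _, ⟨d, hd, h3⟩⟩ := hx
    have := hle d hd
    linarith [hx'.2.1]

/-- pairing consecutive elements -/
theorem pair_sum (s : ι → ℝ) (K : Finset ℝ) (f : ι → ℕ) (n : ℕ) : ∀ A : Finset ι, A.card = n →
    (∀ i ∈ A, ∀ j ∈ A, s i = s j → i = j) →
    (∀ a ∈ A, ∀ a' ∈ A, s a < s a' → (∀ x ∈ A, ¬ (s a < s x ∧ s x < s a')) →
      1 ≤ f a + f a' + (K.filter (fun x => s a < x ∧ x < s a')).card) →
    A.card / 2 ≤ ∑ a ∈ A, f a + (inner A s K).card := by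
  induction n using Nat.strong_induction_on with
  | _ n ih =>
    intro A hA hs h
    by_cases hc : A.card < 2
    · rw [Nat.div_eq_of_lt hc]; exact Nat.zero_le _
    push Not at hc
    obtain ⟨m, hm, hmax⟩ := exists_max_image A s (card_pos.mp (by omega))
    obtain ⟨a, ha, ham, hamax⟩ := top_two A s hs m hm hmax hc
    have haA : a ∈ A := mem_of_mem_erase ha
    have hlt : ∀ x ∈ (A.erase m).erase a, s x < s a := by
      intro x hx
      rw [mem_erase] at hx
      exact lt_of_le_of_ne (hamax x hx.2)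
        (fun h' => hx.1 (hs x (mem_of_mem_erase hx.2) a haA h'))
    have hsub : (A.erase m).erase a ⊆ A := (erase_subset _ _).trans (erase_subset _ _)
    have hcard : ((A.erase m).erase a).card + 2 = A.card := by
      rw [card_erase_of_mem ha, card_erase_of_mem hm]; omega
    have h1 := ih ((A.erase m).erase a).card (by omega) ((A.erase m).erase a) rfl
      (fun i hi j hj => hs i (hsub hi) j (hsub hj)) (by
        intro b hb b' hb' hbb hno
        refine h b (hsub hb) b' (hsub hb') hbb ?_
        rintro x hx ⟨h2, h3⟩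
        have h4 := hlt b' hb'
        by_cases hxm : x = m
        · rw [hxm] at h3; linarith
        by_cases hxa : x = a
        · rw [hxa] at h3; linarith
        exact hno x (mem_erase.mpr ⟨hxa, mem_erase.mpr ⟨hxm, hx⟩⟩) ⟨h2, h3⟩)
    have h2 := h a haA m hm ham (by
      rintro x hx ⟨h3, h4⟩
      have : x ≠ m := fun h' => by rw [h'] at h4; exact lt_irrefl _ h4
      linarith [hamax x (mem_erase.mpr ⟨this, hx⟩)])
    have h3 := inner_split A s K ((A.erase m).erase a) hsub a m haA hm (fun x hx => (hlt x hx).le)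
    have h4 : ∑ x ∈ A, f x = f m + (f a + ∑ x ∈ (A.erase m).erase a, f x) := by
      rw [← add_sum_erase A f hm, ← add_sum_erase (A.erase m) f ha]
    rw [h4]
    omega

/-- all consecutive pairs -/
theorem gap_sum (s : ι → ℝ) (K : Finset ℝ) (f : ι → ℕ) (n : ℕ) : ∀ A : Finset ι, A.card = n →
    (∀ i ∈ A, ∀ j ∈ A, s i = s j → i = j) →
    (∀ a ∈ A, ∀ a' ∈ A, s a < s a' → (∀ x ∈ A, ¬ (s a < s x ∧ s x < s a')) →
      2 ≤ f a + f a' + 2 * (K.filter (fun x => s a < x ∧ x < s a')).card) →
    ∀ m ∈ A, (∀ x ∈ A, s x ≤ s m) →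
    2 * (A.card - 1) + f m ≤ 2 * ∑ a ∈ A, f a + 2 * (inner A s K).card := by
  induction n with
  | zero =>
    intro A hA _ _ m hm
    rw [card_eq_zero] at hA
    rw [hA] at hm
    exact absurd hm (notMem_empty _)
  | succ n ih =>
    intro A hA hs h m hm hmax
    by_cases hc : A.card < 2
    · have h1 : A.card = 1 := by have := card_pos.mpr ⟨m, hm⟩; omega
      obtain ⟨z, hz⟩ := card_eq_one.mp h1
      rw [hz, mem_singleton] at hm
      rw [h1, hz, sum_singleton, hm]
      omega
    push Not at hc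
    obtain ⟨a, ha, ham, hamax⟩ := top_two A s hs m hm hmax hc
    have haA : a ∈ A := mem_of_mem_erase ha
    have hsub : A.erase m ⊆ A := erase_subset _ _
    have hcard : (A.erase m).card + 1 = A.card := by
      rw [card_erase_of_mem hm]; omega
    have h1 := ih (A.erase m) (by omega)
      (fun i hi j hj => hs i (hsub hi) j (hsub hj)) (by
        intro b hb b' hb' hbb hno
        refine h b (hsub hb) b' (hsub hb') hbb ?_
        rintro x hx ⟨h2, h3⟩
        by_cases hxm : x = m
        · rw [hxm] at h3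
          have := hamax b' hb'
          linarith
        exact hno x (mem_erase.mpr ⟨hxm, hx⟩) ⟨h2, h3⟩) a ha hamax
    have h2 := h a haA m hm ham (by
      rintro x hx ⟨h3, h4⟩
      have : x ≠ m := fun h' => by rw [h'] at h4; exact lt_irrefl _ h4
      linarith [hamax x (mem_erase.mpr ⟨this, hx⟩)])
    have h3 := inner_split A s K (A.erase m) hsub a m haA hm hamax
    have h4 : ∑ x ∈ A, f x = f m + ∑ x ∈ A.erase m, f x := (add_sum_erase A f hm).symm
    rw [h4]
    omega

/-- splitting a finite set of reals into three parts -/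
theorem three_parts (B : Finset ι) (s : ι → ℝ) (K : Finset ℝ) (p q : ι)
    (hpq : s p < s q) (hp : ∀ x ∈ B, s p ≤ s x) (hq : ∀ x ∈ B, s x ≤ s q) :
    (K.filter (fun x => x ≤ s p)).card + (K.filter (fun x => s q ≤ x)).card +
      (inner B s K).card ≤ K.card := by
  rw [← card_union_of_disjoint, ← card_union_of_disjoint]
  · apply card_le_card
    intro x hx
    rw [mem_union, mem_union, mem_filter, mem_filter, mem_inner] at hx
    rcases hx with (h | h) | h
    · exact h.1
    · exact h.1
    · exact h.1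
  · rw [Finset.disjoint_left]
    intro x hx hx'
    rw [mem_union, mem_filter, mem_filter] at hx
    rw [mem_inner] at hx'
    obtain ⟨_, ⟨a, ha, h1⟩, ⟨b, hb, h2⟩⟩ := hx'
    rcases hx with h | h
    · linarith [h.2, hp a ha]
    · linarith [h.2, hq b hb]
  · rw [Finset.disjoint_left]
    intro x hx hx'
    rw [mem_filter] at hx hx'
    linarith [hx.2, hx'.2]

/-- two columns with at least two points each -/
theorem comb_main (A B : Finset ι) (sA sB : ι → ℝ) (H G : ι → Finset ℝ)
    (hA : ∀ i ∈ A, ∀ j ∈ A, sA i = sA j → i = j) (hB : ∀ i ∈ B, ∀ j ∈ B, sB i = sB j → i = j)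
    (c1 : ∀ a ∈ A, ∀ a' ∈ A, sA a < sA a' → (∀ x ∈ A, ¬ (sA a < sA x ∧ sA x < sA a')) →
      ∀ b ∈ B, 1 ≤ ((H a).filter (fun x => x < sB b)).card +
        ((H a').filter (fun x => x < sB b)).card +
        ((G b).filter (fun x => sA a < x ∧ x < sA a')).card + (if sB b ∈ H a' then 1 else 0))
    (c4 : ∀ a ∈ A, ∀ a' ∈ A, sA a < sA a' → (∀ x ∈ A, ¬ (sA a < sA x ∧ sA x < sA a')) →
      ∀ b ∈ B, 1 ≤ ((H a).filter (fun x => sB b < x)).card +
        ((H a').filter (fun x => sB b < x)).card +
        ((G b).filter (fun x => sA a < x ∧ x < sA a')).card + (if sB b ∈ H a then 1 else 0))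
    (c2 : ∀ b ∈ B, ∀ b' ∈ B, sB b < sB b' → (∀ x ∈ B, ¬ (sB b < sB x ∧ sB x < sB b')) →
      ∀ a ∈ A, 1 ≤ ((G b).filter (fun x => x < sA a)).card +
        ((G b').filter (fun x => x < sA a)).card +
        ((H a).filter (fun x => sB b < x ∧ x < sB b')).card + (if sA a ∈ G b' then 1 else 0))
    (c3 : ∀ b ∈ B, ∀ b' ∈ B, sB b < sB b' → (∀ x ∈ B, ¬ (sB b < sB x ∧ sB x < sB b')) →
      ∀ a ∈ A, 1 ≤ ((G b).filter (fun x => sA a < x)).card +
        ((G b').filter (fun x => sA a < x)).card +
        ((H a).filter (fun x => sB b < x ∧ x < sB b')).card + (if sA a ∈ G b then 1 else 0))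
    (h2A : 2 ≤ A.card) (h2B : 2 ≤ B.card) :
    2 * (A.card / 2) + 2 * (B.card / 2) ≤ ∑ a ∈ A, (H a).card + ∑ b ∈ B, (G b).card := by
  -- extreme elements
  obtain ⟨aM, haM, aMx⟩ := exists_max_image A sA (card_pos.mp (by omega))
  obtain ⟨am, ham, amn⟩ := exists_min_image A sA (card_pos.mp (by omega))
  obtain ⟨bM, hbM, bMx⟩ := exists_max_image B sB (card_pos.mp (by omega))
  obtain ⟨bm, hbm, bmn⟩ := exists_min_image B sB (card_pos.mp (by omega))
  have ltA : sA am < sA aM := by
    obtain ⟨a, ha, h1, _⟩ := top_two A sA hA aM haM aMx h2A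
    exact lt_of_le_of_lt (amn a (mem_of_mem_erase ha)) h1
  have ltB : sB bm < sB bM := by
    obtain ⟨a, ha, h1, _⟩ := top_two B sB hB bM hbM bMx h2B
    exact lt_of_le_of_lt (bmn a (mem_of_mem_erase ha)) h1
  have leF : ∀ (K : Finset ℝ) (t : ℝ), (K.filter (fun x => x < t)).card ≤
      (K.filter (fun x => x ≤ t)).card := fun K t =>
    card_le_card (fun x hx => by rw [mem_filter] at hx ⊢; exact ⟨hx.1, hx.2.le⟩)
  have leF' : ∀ (K : Finset ℝ) (t : ℝ), (K.filter (fun x => t < x)).card ≤
      (K.filter (fun x => t ≤ x)).card := fun K t =>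
    card_le_card (fun x hx => by rw [mem_filter] at hx ⊢; exact ⟨hx.1, hx.2.le⟩)
  have leG : ∀ (K : Finset ℝ) (t : ℝ), (K.filter (fun x => x < t)).card +
      (if t ∈ K then 1 else 0) ≤ (K.filter (fun x => x ≤ t)).card := by
    intro K t
    by_cases ht : t ∈ K
    · rw [if_pos ht]
      have h1 : insert t (K.filter (fun x => x < t)) ⊆ K.filter (fun x => x ≤ t) := by
        intro x hx
        rw [mem_insert, mem_filter] at hx
        rw [mem_filter]
        rcases hx with h | h
        · rw [h]; exact ⟨ht, le_refl _⟩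
        · exact ⟨h.1, h.2.le⟩
      have h2 := card_le_card h1
      rw [card_insert_of_notMem (by simp)] at h2
      exact h2
    · rw [if_neg ht, add_zero]; exact leF K t
  have leG' : ∀ (K : Finset ℝ) (t : ℝ), (K.filter (fun x => t < x)).card +
      (if t ∈ K then 1 else 0) ≤ (K.filter (fun x => t ≤ x)).card := by
    intro K t
    by_cases ht : t ∈ K
    · rw [if_pos ht]
      have h1 : insert t (K.filter (fun x => t < x)) ⊆ K.filter (fun x => t ≤ x) := by
        intro x hx
        rw [mem_insert, mem_filter] at hx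
        rw [mem_filter]
        rcases hx with h | h
        · rw [h]; exact ⟨ht, le_refl _⟩
        · exact ⟨h.1, h.2.le⟩
      have h2 := card_le_card h1
      rw [card_insert_of_notMem (by simp)] at h2
      exact h2
    · rw [if_neg ht, add_zero]; exact leF' K t
  have P1 := pair_sum sA (G bm) (fun a => ((H a).filter (fun x => x ≤ sB bm)).card) A.card A rfl hA
    (by
      intro a ha a' ha' h hno
      have h1 := c1 a ha a' ha' h hno bm hbm
      have h2 := leF (H a) (sB bm)
      have h3 := leG (H a') (sB bm)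
      omega)
  have P2 := pair_sum sA (G bM) (fun a => ((H a).filter (fun x => sB bM ≤ x)).card) A.card A rfl hA
    (by
      intro a ha a' ha' h hno
      have h1 := c4 a ha a' ha' h hno bM hbM
      have h2 := leG' (H a) (sB bM)
      have h3 := leF' (H a') (sB bM)
      omega)
  have P3 := pair_sum sB (H am) (fun b => ((G b).filter (fun x => x ≤ sA am)).card) B.card B rfl hB
    (by
      intro b hb b' hb' h hno
      have h1 := c2 b hb b' hb' h hno am ham
      have h2 := leF (G b) (sA am)
      have h3 := leG (G b') (sA am)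
      omega)
  have P4 := pair_sum sB (H aM) (fun b => ((G b).filter (fun x => sA aM ≤ x)).card) B.card B rfl hB
    (by
      intro b hb b' hb' h hno
      have h1 := c3 b hb b' hb' h hno aM haM
      have h2 := leG' (G b) (sA aM)
      have h3 := leF' (G b') (sA aM)
      omega)
  have Q1 := Finset.sum_le_sum (fun a (_ : a ∈ A) => three_parts B sB (H a) bm bM ltB bmn bMx)
  have Q2 := Finset.sum_le_sum (fun b (_ : b ∈ B) => three_parts A sA (G b) am aM ltA amn aMx)
  simp only [sum_add_distrib] at Q1 Q2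
  have two : ∀ (D : Finset ι) (g : ι → ℕ) (p q : ι), p ∈ D → q ∈ D → p ≠ q →
      g p + g q ≤ ∑ x ∈ D, g x := by
    intro D g p q hp hq hpq
    rw [← add_sum_erase D g hp, ← add_sum_erase (D.erase p) g (mem_erase.mpr ⟨hpq.symm, hq⟩)]
    omega
  have R1 := two A (fun a => (inner B sB (H a)).card) am aM ham haM
    (fun h => by rw [h] at ltA; exact lt_irrefl _ ltA)
  have R2 := two B (fun b => (inner A sA (G b)).card) bm bM hbm hbM
    (fun h => by rw [h] at ltB; exact lt_irrefl _ ltB)
  omega

/-- one column with a single point -/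
theorem comb_one (A : Finset ι) (b : ι) (sA sB : ι → ℝ) (H G : ι → Finset ℝ)
    (hA : ∀ i ∈ A, ∀ j ∈ A, sA i = sA j → i = j)
    (c1 : ∀ a ∈ A, ∀ a' ∈ A, sA a < sA a' → (∀ x ∈ A, ¬ (sA a < sA x ∧ sA x < sA a')) →
      1 ≤ ((H a).filter (fun x => x < sB b)).card +
        ((H a').filter (fun x => x < sB b)).card +
        ((G b).filter (fun x => sA a < x ∧ x < sA a')).card + (if sB b ∈ H a' then 1 else 0))
    (hev : ∀ a ∈ A, Even (H a).card) (h1A : 1 ≤ A.card) :
    A.card - 1 ≤ ∑ a ∈ A, (H a).card + (G b).card := by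
  obtain ⟨aM, haM, aMx⟩ := exists_max_image A sA (card_pos.mp (by omega))
  have leG : ∀ (K : Finset ℝ) (t : ℝ), (K.filter (fun x => x < t)).card +
      (if t ∈ K then 1 else 0) ≤ K.card := by
    intro K t
    by_cases ht : t ∈ K
    · rw [if_pos ht]
      have h1 : insert t (K.filter (fun x => x < t)) ⊆ K := by
        intro x hx
        rw [mem_insert, mem_filter] at hx
        rcases hx with h | h
        · rw [h]; exact ht
        · exact h.1
      have h2 := card_le_card h1
      rw [card_insert_of_notMem (by simp)] at h2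
      exact h2
    · rw [if_neg ht, add_zero]; exact card_le_card (filter_subset _ _)
  have P := gap_sum sA (G b) (fun a => (H a).card) A.card A rfl hA (by
    intro a ha a' ha' h hno
    have h1 := c1 a ha a' ha' h hno
    have h2 : ((H a).filter (fun x => x < sB b)).card ≤ (H a).card :=
      card_le_card (filter_subset _ _)
    have h3 := leG (H a') (sB b)
    obtain ⟨k, hk⟩ := hev a ha
    obtain ⟨l, hl⟩ := hev a' ha'
    omega) aM haM aMx
  have h4 : (inner A sA (G b)).card ≤ (G b).card := card_le_card (filter_subset _ _)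
  omega

end comb

end Pool.Agent.Dirac86
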