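import Mathlib
import Pool.Agent.Dirac80.EvenC
import Pool.Agent.Dirac86.Comb

/-!
# Half strips between adjacent columns, and the heights of the even lines
-/

set_option autoImplicit false
set_option linter.unusedSectionVars false
open Finset Classical

namespace Pool.Agent.Dirac86

open Pool.Agent.Dirac80 (Lin Ln mem_Ln icp icp_zero icp_lt icp_b)
open Pool.Agent.Dirac80b

variable {ι : Type*} [Fintype ι]

/-- one half strip: two consecutive points of a column, and a point of an adjacent column -/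
theorem hsA {C : ι → ι → ι → Prop} {O : ι} {u v : ι → ℝ} (ch : Chart C O u v)
    {a1 a2 b1 : ι} (ha1 : a1 ≠ O) (ha2 : a2 ≠ O) (hb1 : b1 ≠ O)
    (ua : u a1 = u a2) (uab : u a1 ≠ u b1) (hva : v a1 < v a2)
    (hA : ∀ k, k ≠ O → u k = u a1 → ¬ (v a1 < v k ∧ v k < v a2))
    {η : ℝ} (hη : η ≠ 0)
    (hvb : ∀ w, w ≠ O → u w ≠ u a1 → u w ≠ u b1 → 0 < η * ((u w - u a1) * (u w - u b1))) :
    1 ≤ ebad C a1 (reg O u v a1 (u b1) (fun τ => 0 < η * (v b1 - τ)))
      + ebad C a2 (reg O u v a2 (u b1) (fun τ => 0 < η * (v b1 - τ)))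
      + ebad C b1 (reg O u v b1 (u a1) (fun σ => v a1 < σ ∧ σ < v a2))
      + (if Even (Ln C a2 b1).card then 1 else 0) := by
  have hη2 : 0 < η ^ 2 := by positivity
  obtain ⟨W, hW⟩ : ∃ W : Finset ι, W = univ.filter (fun w => w ≠ O ∧ u w ≠ u a1 ∧ u w ≠ u b1) :=
    ⟨_, rfl⟩
  have mW : ∀ w, w ∈ W ↔ (w ≠ O ∧ u w ≠ u a1 ∧ u w ≠ u b1) := by intro w; simp [hW]
  have key : ∀ w ∈ W, ∀ s t : ℝ, ∃ c > 0,
      icp (u a1) (u b1) t (u w) (v w) - s = c * (η * (t - icp (u b1) (u a1) s (u w) (v w))) := by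
    intro w hw s t
    rw [mW] at hw
    have h0 := hvb w hw.1 hw.2.1 hw.2.2
    have hb0 : u w - u b1 ≠ 0 := sub_ne_zero.mpr hw.2.2
    have hrel := icp_rel (s := s) (t := t) (y := v w) hw.2.1 hw.2.2
    refine ⟨(η * ((u w - u a1) * (u w - u b1))) / (η ^ 2 * (u w - u b1) ^ 2), ?_, ?_⟩
    · exact div_pos h0 (by positivity)
    · have h3 : icp (u a1) (u b1) t (u w) (v w) - s =
          (u w - u a1) * (t - icp (u b1) (u a1) s (u w) (v w)) / (u w - u b1) := by
        rw [eq_div_iff hb0]; linarith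
      rw [h3]
      field_simp
  set A1 := reg O u v a1 (u b1) with hA1
  set A2 := reg O u v a2 (u b1) with hA2
  set B1 := reg O u v b1 (u a1) with hB1
  have mA1 : ∀ (P : ℝ → Prop) k, k ∈ A1 P ↔ k ≠ O ∧ u k ≠ u a1 ∧
      P (icp (u b1) (u a1) (v a1) (u k) (v k)) := by
    intro P k; rw [hA1, mem_reg]
  have mA2 : ∀ (P : ℝ → Prop) k, k ∈ A2 P ↔ k ≠ O ∧ u k ≠ u a1 ∧
      P (icp (u b1) (u a1) (v a2) (u k) (v k)) := by
    intro P k; rw [hA2, mem_reg, ← ua]
  have mB1 : ∀ (P : ℝ → Prop) k, k ∈ B1 P ↔ k ≠ O ∧ u k ≠ u b1 ∧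
      P (icp (u a1) (u b1) (v b1) (u k) (v k)) := by
    intro P k; rw [hB1, mem_reg]
  have colA : ∀ k, k ≠ O → u k = u a1 → ∀ t, icp (u a1) (u b1) t (u k) (v k) = v k := by
    intro k _ hk t; rw [hk]; exact icp_self uab
  have colB : ∀ k, k ≠ O → u k = u b1 → ∀ t, icp (u b1) (u a1) t (u k) (v k) = v k := by
    intro k _ hk t; rw [hk]; exact icp_self uab.symm
  set c := W.filter (fun k => icp (u a1) (u b1) (v b1) (u k) (v k) = v a2) with hc
  have m_c : ∀ k, k ∈ c ↔ (k ≠ O ∧ u k ≠ u a1 ∧ u k ≠ u b1) ∧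
      icp (u a1) (u b1) (v b1) (u k) (v k) = v a2 := by
    intro k; rw [hc, mem_filter, mW]
  have nin : ∀ (x : ι) (β : ℝ) (P : ℝ → Prop), x ∉ reg O u v x β P := by
    intro x β P h; rw [mem_reg] at h; exact h.2.1 rfl
  have sg : ∀ w, w ≠ O → u w ≠ u a1 → u w ≠ u b1 → ∀ s t : ℝ,
      (0 < η * (t - icp (u b1) (u a1) s (u w) (v w)) ↔ s < icp (u a1) (u b1) t (u w) (v w)) := by
    intro w h0 h1 h2 s t
    obtain ⟨c, hc, he⟩ := key w ((mW w).mpr ⟨h0, h1, h2⟩) s t
    constructor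
    · intro h; have := mul_pos hc h; linarith
    · intro h; exact (pos_iff_pos_of_mul_pos (by rw [← he]; linarith)).mp hc
  have cases : ∀ k, k = O ∨ (k ≠ O ∧ u k = u a1) ∨ (k ≠ O ∧ u k = u b1) ∨
      (k ≠ O ∧ u k ≠ u a1 ∧ u k ≠ u b1) := by
    intro k
    by_cases h0 : k = O
    · exact Or.inl h0
    by_cases h1 : u k = u a1
    · exact Or.inr (Or.inl ⟨h0, h1⟩)
    by_cases h2 : u k = u b1
    · exact Or.inr (Or.inr (Or.inl ⟨h0, h2⟩))
    · exact Or.inr (Or.inr (Or.inr ⟨h0, h1, h2⟩))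
  have H1 := half_strip ch.lin a1 a2 b1 (A1 (fun τ => 0 < η * (v b1 - τ)))
    (A2 (fun τ => 0 < η * (v b1 - τ))) (B1 (fun σ => v a1 < σ ∧ σ < v a2)) c
    (nin _ _ _) (nin _ _ _) (nin _ _ _) (ch.closed ha1 _ _) (ch.closed ha2 _ _)
    (ch.closed hb1 _ _) (by
      intro k
      rcases cases k with h0 | ⟨h0, h1⟩ | ⟨h0, h2⟩ | ⟨h0, h1, h2⟩
      · exact Ev4.mem (by rw [mA1]; simp [h0]) (by rw [mA2]; simp [h0]) (by rw [mB1]; simp [h0])
          (by rw [m_c]; simp [h0]) par_no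
      · refine Ev4.mem (by rw [mA1]; simp [h1]) (by rw [mA2]; simp [h1])
          (?_ : _ ↔ False) (by rw [m_c]; simp [h1]) par_no
        rw [mB1, colA k h0 h1]
        simp only [iff_false, not_and]
        intro _ _ h3; exact fun h4 => hA k h0 h1 ⟨h3, h4⟩
      · exact Ev4.mem (p := 0 < η * (v b1 - v k)) (q := 0 < η * (v b1 - v k))
          (by rw [mA1, colB k h0 h2]; simp [h0, h2, uab.symm])
          (by rw [mA2, colB k h0 h2]; simp [h0, h2, uab.symm])
          (by rw [mB1]; simp [h2]) (by rw [m_c]; simp [h2]) par_eq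
      · exact Ev4.mem (by rw [mA1, sg k h0 h1 h2 _ _]; simp [h0, h1])
          (by rw [mA2, sg k h0 h1 h2 _ _]; simp [h0, h1])
          (by rw [mB1]; simp [h0, h2]) (by rw [m_c]; simp [h0, h1, h2])
          (par1 (p := icp (u a1) (u b1) (v b1) (u k) (v k)) hva))
  have n21 : a2 ≠ b1 := fun h => uab (by rw [ua, h])
  have card21 : (Ln C a2 b1).card = c.card + 2 := by
    have : Ln C a2 b1 = insert a2 (insert b1 c) := by
      ext k
      rw [mem_insert, mem_insert, m_c]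
      by_cases k1 : k = a2
      · simp only [k1, true_or, iff_true]; exact ch.lin.left_mem _ _
      by_cases k2 : k = b1
      · simp only [k2, true_or, or_true, iff_true]; exact ch.lin.right_mem _ _
      simp only [k1, k2, false_or]
      rw [mem_Ln]
      constructor
      · intro h
        have kO := ch.ne_O ha2 hb1 (by rw [← ua]; exact uab.symm) h
        have ku := ch.ne_col ha2 hb1 kO (by rw [← ua]; exact uab.symm) k1 h
        have ku2 := ch.ne_col hb1 ha2 kO (by rw [← ua]; exact uab) k2 (ch.lin.hs' _ _ _ h)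
        rw [← ua] at ku
        refine ⟨⟨kO, ku, ku2⟩, ?_⟩
        have h2 := (ch.hC a2 b1 k ha2 hb1 kO).mp h
        rw [← ua] at h2
        have := (icp_zero (s := v a2) ku2).mpr h2
        linarith
      · rintro ⟨⟨kO, ku, ku2⟩, h⟩
        have h2 := (icp_zero (α := u a1) (β := u b1) (s := v a2) (t := v b1) (y := v k) ku2).mp
          (by linarith)
        rw [ch.hC a2 b1 k ha2 hb1 kO, ← ua]
        exact h2
    rw [this, card_insert_of_notMem, card_insert_of_notMem]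
    · rw [m_c]; exact fun h => h.1.2.2 rfl
    · rw [mem_insert, m_c, not_or]; exact ⟨n21, fun h => h.1.2.1 ua.symm⟩
  rw [card21]
  have e1 : Even (c.card + 2) ↔ Even c.card := by
    rw [Nat.even_add]; simp
  simp only [e1]
  exact H1

theorem icp_neg {α β t x y : ℝ} : icp α β (-t) x (-y) = -icp α β t x y := by
  unfold icp; ring

theorem Chart_neg {C : ι → ι → ι → Prop} {O : ι} {u v : ι → ℝ} (ch : Chart C O u v) :
    Chart C O u (fun i => -v i) where
  lin := ch.lin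
  hC := by
    intro i j k hi hj hk
    rw [ch.hC i j k hi hj hk]
    constructor
    · intro h; linarith
    · intro h; linarith
  hO := ch.hO
  inj := fun i j hi hj h h' => ch.inj i j hi hj h (by linarith)

theorem reg_neg {O : ι} {u v : ι → ℝ} {x : ι} {β : ℝ} {P : ℝ → Prop} :
    reg O u (fun i => -v i) x β P = reg O u v x β (fun τ => P (-τ)) := by
  ext k
  rw [mem_reg, mem_reg, icp_neg]

/-- the opposite half strip -/
theorem hsA' {C : ι → ι → ι → Prop} {O : ι} {u v : ι → ℝ} (ch : Chart C O u v)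
    {a1 a2 b1 : ι} (ha1 : a1 ≠ O) (ha2 : a2 ≠ O) (hb1 : b1 ≠ O)
    (ua : u a1 = u a2) (uab : u a1 ≠ u b1) (hva : v a1 < v a2)
    (hA : ∀ k, k ≠ O → u k = u a1 → ¬ (v a1 < v k ∧ v k < v a2))
    {η : ℝ} (hη : η ≠ 0)
    (hvb : ∀ w, w ≠ O → u w ≠ u a1 → u w ≠ u b1 → 0 < η * ((u w - u a1) * (u w - u b1))) :
    1 ≤ ebad C a1 (reg O u v a1 (u b1) (fun τ => 0 < η * (τ - v b1)))
      + ebad C a2 (reg O u v a2 (u b1) (fun τ => 0 < η * (τ - v b1)))
      + ebad C b1 (reg O u v b1 (u a1) (fun σ => v a1 < σ ∧ σ < v a2))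
      + (if Even (Ln C a1 b1).card then 1 else 0) := by
  have h := hsA (Chart_neg ch) (a1 := a2) (a2 := a1) (b1 := b1) ha2 ha1 hb1 ua.symm
    (by rw [← ua]; exact uab) (by simpa using hva) (by
      rintro k hk hk' ⟨h1, h2⟩
      exact hA k hk (by rw [hk', ua]) ⟨by linarith, by linarith⟩) hη (by
      intro w hw h1 h2
      rw [← ua] at h1 ⊢
      exact hvb w hw h1 h2)
  rw [reg_neg, reg_neg, reg_neg, ← ua] at h
  have e1 : ∀ x, (reg O u v x (u b1) (fun τ => 0 < η * (-v b1 - -τ))) =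
      reg O u v x (u b1) (fun τ => 0 < η * (τ - v b1)) := by
    intro x; congr 1; funext τ; rw [show -v b1 - -τ = τ - v b1 by ring]
  have e2 : (reg O u v b1 (u a1) (fun τ => -v a2 < -τ ∧ -τ < -v a1)) =
      reg O u v b1 (u a1) (fun σ => v a1 < σ ∧ σ < v a2) := by
    congr 1; funext τ; rw [neg_lt_neg_iff, neg_lt_neg_iff, and_comm]
  rw [e1, e1, e2] at h
  omega

end Pool.Agent.Dirac86
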