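import Mathlib
import Pool.Agent.Dirac86.Geo

/-!
# The inequality for two adjacent columns
-/

set_option autoImplicit false
set_option linter.unusedSectionVars false
open Finset Classical

namespace Pool.Agent.Dirac86

open Pool.Agent.Dirac80 (Lin Ln mem_Ln icp icp_zero icp_lt icp_b)
open Pool.Agent.Dirac80b

variable {ι : Type*} [Fintype ι]

/-- (scaled) height at abscissa `β` of the line through `x` and `k` -/
noncomputable def hgt (u v : ι → ℝ) (x : ι) (β η : ℝ) (k : ι) : ℝ :=
  η * icp β (u x) (v x) (u k) (v k)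

/-- the heights at abscissa `β` of the even lines through `x` -/
noncomputable def Hs (C : ι → ι → ι → Prop) (O : ι) (u v : ι → ℝ) (x : ι) (β η : ℝ) :
    Finset ℝ :=
  ((off O u x).filter (fun k => Even (Ln C x k).card)).image (hgt u v x β η)

/-- the line through `x` with a given height -/
noncomputable def gl (O : ι) (u v : ι → ℝ) (x : ι) (β η : ℝ) (τ : ℝ) : Finset ι :=
  insert x ((off O u x).filter (fun l => hgt u v x β η l = τ))

theorem Ln_eq_gl {C : ι → ι → ι → Prop} {O : ι} {u v : ι → ℝ} (ch : Chart C O u v)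
    {x : ι} (hx : x ≠ O) {β η : ℝ} (hβ : β ≠ u x) (hη : η ≠ 0) {k : ι} (hk : k ∈ off O u x) :
    Ln C x k = gl O u v x β η (hgt u v x β η k) := by
  rw [mem_off] at hk
  ext l
  rw [mem_Ln, gl, mem_insert, mem_filter, mem_off]
  constructor
  · intro h
    by_cases hl : l = x
    · exact Or.inl hl
    · refine Or.inr ?_
      have lO := ch.ne_O hx hk.1 hk.2 h
      have lu := ch.ne_col hx hk.1 lO hk.2 hl h
      refine ⟨⟨lO, lu⟩, ?_⟩
      have h2 := (ch.hC x k l hx hk.1 lO).mp h
      unfold hgt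
      rw [icp_b hk.2 lu h2]
  · rintro (h | ⟨⟨lO, lu⟩, h⟩)
    · rw [h]; exact mem_Ln.mp (ch.lin.left_mem _ _)
    · rw [ch.hC x k l hx hk.1 lO]
      unfold hgt at h
      have h1 := mul_left_cancel₀ hη h
      have d1 : u k - u x ≠ 0 := sub_ne_zero.mpr hk.2
      have d2 : u l - u x ≠ 0 := sub_ne_zero.mpr lu
      have d3 : β - u x ≠ 0 := sub_ne_zero.mpr hβ
      unfold icp at h1
      have h3 : (v l - v x) * (β - u x) / (u l - u x) = (v k - v x) * (β - u x) / (u k - u x) := by
        linarith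
      rw [div_eq_div_iff d2 d1] at h3
      have h4 : (β - u x) * ((u k - u x) * (v l - v x) - (v k - v x) * (u l - u x)) = 0 := by
        linarith
      rcases mul_eq_zero.mp h4 with h5 | h5
      · exact absurd h5 d3
      · exact h5

theorem ebad_reg_le {C : ι → ι → ι → Prop} {O : ι} {u v : ι → ℝ} (ch : Chart C O u v)
    {x : ι} (hx : x ≠ O) {β η : ℝ} (hβ : β ≠ u x) (hη : η ≠ 0) (P Q : ℝ → Prop)
    [DecidablePred Q] (hPQ : ∀ τ, P τ → Q (η * τ)) :
    ebad C x (reg O u v x β P) ≤ ((Hs C O u v x β η).filter Q).card := by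
  unfold ebad
  refine le_trans (card_le_card (t := ((Hs C O u v x β η).filter Q).image (gl O u v x β η)) ?_)
    card_image_le
  intro T hT
  rw [mem_filter, mem_image] at hT
  obtain ⟨⟨k, hk, rfl⟩, he⟩ := hT
  have hko : k ∈ off O u x := reg_sub hk
  rw [mem_reg] at hk
  rw [mem_image]
  refine ⟨hgt u v x β η k, ?_, (Ln_eq_gl ch hx hβ hη hko).symm⟩
  rw [mem_filter]
  refine ⟨?_, hPQ _ hk.2.2⟩
  rw [Hs, mem_image]
  exact ⟨k, mem_filter.mpr ⟨hko, he⟩, rfl⟩

theorem Hs_card {C : ι → ι → ι → Prop} {O : ι} {u v : ι → ℝ} (ch : Chart C O u v)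
    {x : ι} (hx : x ≠ O) {β η : ℝ} (hβ : β ≠ u x) (hη : η ≠ 0) :
    (Hs C O u v x β η).card = ebad C x (off O u x) := by
  apply le_antisymm
  · have hinj : Set.InjOn (gl O u v x β η) (Hs C O u v x β η : Set ℝ) := by
      intro τ hτ τ' hτ' h
      rw [mem_coe, Hs, mem_image] at hτ
      obtain ⟨k, hk, rfl⟩ := hτ
      rw [mem_filter] at hk
      have hkx : k ≠ x := fun h' => by
        have := hk.1
        rw [mem_off] at this
        exact this.2 (by rw [h'])
      have h1 : k ∈ gl O u v x β η (hgt u v x β η k) :=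
        mem_insert_of_mem (mem_filter.mpr ⟨hk.1, rfl⟩)
      rw [h, gl, mem_insert, mem_filter] at h1
      rcases h1 with h1 | h1
      · exact absurd h1 hkx
      · exact h1.2
    rw [← card_image_of_injOn hinj]
    unfold ebad
    apply card_le_card
    intro T hT
    rw [mem_image] at hT
    obtain ⟨τ, hτ, rfl⟩ := hT
    rw [Hs, mem_image] at hτ
    obtain ⟨k, hk, rfl⟩ := hτ
    rw [mem_filter] at hk
    rw [← Ln_eq_gl ch hx hβ hη hk.1, mem_filter, mem_image]
    exact ⟨⟨k, hk.1, rfl⟩, hk.2⟩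
  · have h1 := ebad_reg_le ch hx hβ hη (fun _ => True) (fun _ => True) (fun _ _ => trivial)
    have h2 : reg O u v x β (fun _ => True) = off O u x := by
      ext k; rw [mem_reg, mem_off]; simp
    rw [h2] at h1
    exact h1.trans (card_le_card (filter_subset _ _))

theorem mem_Hs {C : ι → ι → ι → Prop} {O : ι} {u v : ι → ℝ} {x y : ι} {η : ℝ}
    (hy : y ≠ O) (hyx : u y ≠ u x) (he : Even (Ln C x y).card) :
    η * v y ∈ Hs C O u v x (u y) η := by
  rw [Hs, mem_image]
  refine ⟨y, mem_filter.mpr ⟨mem_off.mpr ⟨hy, hyx⟩, he⟩, ?_⟩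
  unfold hgt
  rw [icp_self hyx]

/-- the conditions of the counting lemmas, for an adjacent pair of columns -/
theorem cond1 {C : ι → ι → ι → Prop} {O : ι} {u v : ι → ℝ} (ch : Chart C O u v)
    {α β : ℝ} (hαβ : α ≠ β) {η : ℝ} (hη : η ≠ 0)
    (hvb : ∀ w, w ≠ O → u w ≠ α → u w ≠ β → 0 < η * ((u w - α) * (u w - β))) :
    ∀ a ∈ colm O u α, ∀ a' ∈ colm O u α, v a < v a' →
      (∀ x ∈ colm O u α, ¬ (v a < v x ∧ v x < v a')) →
      ∀ b ∈ colm O u β, 1 ≤ ((Hs C O u v a β η).filter (fun x => x < η * v b)).card +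
        ((Hs C O u v a' β η).filter (fun x => x < η * v b)).card +
        ((Hs C O u v b α 1).filter (fun x => v a < x ∧ x < v a')).card +
          (if η * v b ∈ Hs C O u v a' β η then 1 else 0) := by
  intro a ha a' ha' hlt hno b hb
  rw [mem_colm] at ha ha' hb
  have h := hsA ch (a1 := a) (a2 := a') (b1 := b) ha.1 ha'.1 hb.1 (by rw [ha.2, ha'.2])
    (by rw [ha.2, hb.2]; exact hαβ) hlt (by
      intro k hk hk'
      exact hno k (mem_colm.mpr ⟨hk, by rw [hk', ha.2]⟩)) hη (by
      intro w hw h1 h2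
      rw [ha.2, hb.2]
      rw [ha.2] at h1
      rw [hb.2] at h2
      exact hvb w hw h1 h2)
  rw [ha.2, hb.2] at h
  have e1 := ebad_reg_le ch ha.1 (β := β) (η := η) (by rw [ha.2]; exact hαβ.symm) hη
    (fun τ => 0 < η * (v b - τ)) (fun x => x < η * v b) (fun τ hτ => by
      have : η * (v b - τ) = η * v b - η * τ := by ring
      linarith)
  have e2 := ebad_reg_le ch ha'.1 (β := β) (η := η) (by rw [ha'.2]; exact hαβ.symm) hη
    (fun τ => 0 < η * (v b - τ)) (fun x => x < η * v b) (fun τ hτ => by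
      have : η * (v b - τ) = η * v b - η * τ := by ring
      linarith)
  have e3 := ebad_reg_le ch hb.1 (β := α) (η := 1) (by rw [hb.2]; exact hαβ) one_ne_zero
    (fun σ => v a < σ ∧ σ < v a') (fun x => v a < x ∧ x < v a') (fun τ hτ => by
      rw [one_mul]; exact hτ)
  have e4 : (if Even (Ln C a' b).card then 1 else 0) ≤
      (if η * v b ∈ Hs C O u v a' β η then 1 else 0) := by
    by_cases he : Even (Ln C a' b).card
    · have := mem_Hs (C := C) (v := v) (η := η) hb.1
        (show u b ≠ u a' by rw [hb.2, ha'.2]; exact hαβ.symm) he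
      rw [hb.2] at this
      rw [if_pos he, if_pos this]
    · rw [if_neg he]; exact Nat.zero_le _
  omega

theorem cond4 {C : ι → ι → ι → Prop} {O : ι} {u v : ι → ℝ} (ch : Chart C O u v)
    {α β : ℝ} (hαβ : α ≠ β) {η : ℝ} (hη : η ≠ 0)
    (hvb : ∀ w, w ≠ O → u w ≠ α → u w ≠ β → 0 < η * ((u w - α) * (u w - β))) :
    ∀ a ∈ colm O u α, ∀ a' ∈ colm O u α, v a < v a' →
      (∀ x ∈ colm O u α, ¬ (v a < v x ∧ v x < v a')) →
      ∀ b ∈ colm O u β, 1 ≤ ((Hs C O u v a β η).filter (fun x => η * v b < x)).card +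
        ((Hs C O u v a' β η).filter (fun x => η * v b < x)).card +
        ((Hs C O u v b α 1).filter (fun x => v a < x ∧ x < v a')).card +
          (if η * v b ∈ Hs C O u v a β η then 1 else 0) := by
  intro a ha a' ha' hlt hno b hb
  rw [mem_colm] at ha ha' hb
  have h := hsA' ch (a1 := a) (a2 := a') (b1 := b) ha.1 ha'.1 hb.1 (by rw [ha.2, ha'.2])
    (by rw [ha.2, hb.2]; exact hαβ) hlt (by
      intro k hk hk'
      exact hno k (mem_colm.mpr ⟨hk, by rw [hk', ha.2]⟩)) hη (by
      intro w hw h1 h2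
      rw [ha.2, hb.2]
      rw [ha.2] at h1
      rw [hb.2] at h2
      exact hvb w hw h1 h2)
  rw [ha.2, hb.2] at h
  have e1 := ebad_reg_le ch ha.1 (β := β) (η := η) (by rw [ha.2]; exact hαβ.symm) hη
    (fun τ => 0 < η * (τ - v b)) (fun x => η * v b < x) (fun τ hτ => by
      have : η * (τ - v b) = η * τ - η * v b := by ring
      linarith)
  have e2 := ebad_reg_le ch ha'.1 (β := β) (η := η) (by rw [ha'.2]; exact hαβ.symm) hη
    (fun τ => 0 < η * (τ - v b)) (fun x => η * v b < x) (fun τ hτ => by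
      have : η * (τ - v b) = η * τ - η * v b := by ring
      linarith)
  have e3 := ebad_reg_le ch hb.1 (β := α) (η := 1) (by rw [hb.2]; exact hαβ) one_ne_zero
    (fun σ => v a < σ ∧ σ < v a') (fun x => v a < x ∧ x < v a') (fun τ hτ => by
      rw [one_mul]; exact hτ)
  have e4 : (if Even (Ln C a b).card then 1 else 0) ≤
      (if η * v b ∈ Hs C O u v a β η then 1 else 0) := by
    by_cases he : Even (Ln C a b).card
    · have := mem_Hs (C := C) (v := v) (η := η) hb.1
        (show u b ≠ u a by rw [hb.2, ha.2]; exact hαβ.symm) he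
      rw [hb.2] at this
      rw [if_pos he, if_pos this]
    · rw [if_neg he]; exact Nat.zero_le _
  omega

/-- the conditions for pairs of the second column -/
theorem cond23 {C : ι → ι → ι → Prop} {O : ι} {u v : ι → ℝ} (ch : Chart C O u v)
    {α β : ℝ} (hαβ : α ≠ β) {η : ℝ} (hη : η ≠ 0)
    (hvb : ∀ w, w ≠ O → u w ≠ α → u w ≠ β → 0 < η * ((u w - α) * (u w - β))) :
    ∀ b ∈ colm O u β, ∀ b' ∈ colm O u β, η * v b < η * v b' →
      (∀ x ∈ colm O u β, ¬ (η * v b < η * v x ∧ η * v x < η * v b')) →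
      ∀ a ∈ colm O u α, 1 ≤ ((Hs C O u v b α 1).filter (fun x => x < v a)).card +
        ((Hs C O u v b' α 1).filter (fun x => x < v a)).card +
        ((Hs C O u v a β η).filter (fun x => η * v b < x ∧ x < η * v b')).card +
          (if v a ∈ Hs C O u v b' α 1 then 1 else 0) ∧
      1 ≤ ((Hs C O u v b α 1).filter (fun x => v a < x)).card +
        ((Hs C O u v b' α 1).filter (fun x => v a < x)).card +
        ((Hs C O u v a β η).filter (fun x => η * v b < x ∧ x < η * v b')).card +
          (if v a ∈ Hs C O u v b α 1 then 1 else 0) := by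
  intro b hb b' hb' hlt hno a ha
  rw [mem_colm] at ha hb hb'
  have hvb' : ∀ w, w ≠ O → u w ≠ β → u w ≠ α → 0 < η * ((u w - β) * (u w - α)) := by
    intro w h0 h1 h2
    rw [mul_comm (u w - β)]
    exact hvb w h0 h2 h1
  -- the four comparisons
  have lt : ∀ z : ι, z ∈ colm O u β → ebad C z (reg O u v z α (fun σ => σ < v a)) ≤
      ((Hs C O u v z α 1).filter (fun x => x < v a)).card := by
    intro z hz
    rw [mem_colm] at hz
    exact ebad_reg_le ch hz.1 (by rw [hz.2]; exact hαβ) one_ne_zero _ _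
      (fun τ hτ => by rw [one_mul]; exact hτ)
  have gt : ∀ z : ι, z ∈ colm O u β → ebad C z (reg O u v z α (fun σ => v a < σ)) ≤
      ((Hs C O u v z α 1).filter (fun x => v a < x)).card := by
    intro z hz
    rw [mem_colm] at hz
    exact ebad_reg_le ch hz.1 (by rw [hz.2]; exact hαβ) one_ne_zero _ _
      (fun τ hτ => by rw [one_mul]; exact hτ)
  have cor : ∀ z : ι, z ∈ colm O u β → (if Even (Ln C z a).card then 1 else 0) ≤
      (if v a ∈ Hs C O u v z α 1 then 1 else 0) := by
    intro z hz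
    rw [mem_colm] at hz
    by_cases he : Even (Ln C z a).card
    · have := mem_Hs (C := C) (v := v) (η := 1) ha.1
        (show u a ≠ u z by rw [ha.2, hz.2]; exact hαβ) he
      rw [ha.2, one_mul] at this
      rw [if_pos he, if_pos this]
    · rw [if_neg he]; exact Nat.zero_le _
  have mb := mem_colm.mpr hb
  have mb' := mem_colm.mpr hb'
  rcases lt_or_gt_of_ne hη with hneg | hpos
  · -- `η < 0`
    have hlt' : v b' < v b := by nlinarith
    have hcol : ∀ k, k ≠ O → u k = u b' → ¬ (v b' < v k ∧ v k < v b) := by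
      rintro k hk hk' ⟨h1, h2⟩
      exact hno k (mem_colm.mpr ⟨hk, by rw [hk', hb'.2]⟩) ⟨by nlinarith, by nlinarith⟩
    have hmid := ebad_reg_le ch ha.1 (β := β) (η := η) (by rw [ha.2]; exact hαβ.symm) hη
      (fun σ => v b' < σ ∧ σ < v b) (fun x => η * v b < x ∧ x < η * v b')
      (fun τ hτ => ⟨by nlinarith [hτ.2], by nlinarith [hτ.1]⟩)
    have hW : ∀ w, w ≠ O → u w ≠ u b' → u w ≠ u a → 0 < η * ((u w - u b') * (u w - u a)) := by
      intro w h0 h1 h2
      rw [hb'.2] at h1 ⊢
      rw [ha.2] at h2 ⊢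
      exact hvb' w h0 h1 h2
    constructor
    · have h := hsA' ch (a1 := b') (a2 := b) (b1 := a) hb'.1 hb.1 ha.1 (by rw [hb.2, hb'.2])
        (by rw [ha.2, hb'.2]; exact hαβ.symm) hlt' hcol hη hW
      rw [ha.2, hb'.2] at h
      have e : ∀ z, reg O u v z α (fun τ => 0 < η * (τ - v a)) = reg O u v z α (fun σ => σ < v a) := by
        intro z; congr 1; funext τ
        apply propext
        constructor
        · intro h; by_contra hc; nlinarith
        · intro h; exact mul_pos_of_neg_of_neg hneg (by linarith)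
      rw [e, e] at h
      have h1 := lt b mb
      have h2 := lt b' mb'
      have h3 := cor b' mb'
      omega
    · have h := hsA ch (a1 := b') (a2 := b) (b1 := a) hb'.1 hb.1 ha.1 (by rw [hb.2, hb'.2])
        (by rw [ha.2, hb'.2]; exact hαβ.symm) hlt' hcol hη hW
      rw [ha.2, hb'.2] at h
      have e : ∀ z, reg O u v z α (fun τ => 0 < η * (v a - τ)) = reg O u v z α (fun σ => v a < σ) := by
        intro z; congr 1; funext τ
        apply propext
        constructor
        · intro h; by_contra hc; nlinarith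
        · intro h; exact mul_pos_of_neg_of_neg hneg (by linarith)
      rw [e, e] at h
      have h1 := gt b mb
      have h2 := gt b' mb'
      have h3 := cor b mb
      omega
  · -- `0 < η`
    have hlt' : v b < v b' := by nlinarith
    have hcol : ∀ k, k ≠ O → u k = u b → ¬ (v b < v k ∧ v k < v b') := by
      rintro k hk hk' ⟨h1, h2⟩
      exact hno k (mem_colm.mpr ⟨hk, by rw [hk', hb.2]⟩) ⟨by nlinarith, by nlinarith⟩
    have hmid := ebad_reg_le ch ha.1 (β := β) (η := η) (by rw [ha.2]; exact hαβ.symm) hη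
      (fun σ => v b < σ ∧ σ < v b') (fun x => η * v b < x ∧ x < η * v b')
      (fun τ hτ => ⟨by nlinarith [hτ.1], by nlinarith [hτ.2]⟩)
    have hW : ∀ w, w ≠ O → u w ≠ u b → u w ≠ u a → 0 < η * ((u w - u b) * (u w - u a)) := by
      intro w h0 h1 h2
      rw [hb.2] at h1 ⊢
      rw [ha.2] at h2 ⊢
      exact hvb' w h0 h1 h2
    constructor
    · have h := hsA ch (a1 := b) (a2 := b') (b1 := a) hb.1 hb'.1 ha.1 (by rw [hb.2, hb'.2])
        (by rw [ha.2, hb.2]; exact hαβ.symm) hlt' hcol hη hW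
      rw [ha.2, hb.2] at h
      have e : ∀ z, reg O u v z α (fun τ => 0 < η * (v a - τ)) = reg O u v z α (fun σ => σ < v a) := by
        intro z; congr 1; funext τ
        apply propext
        constructor
        · intro h; by_contra hc; nlinarith
        · intro h; exact mul_pos hpos (by linarith)
      rw [e, e] at h
      have h1 := lt b mb
      have h2 := lt b' mb'
      have h3 := cor b' mb'
      omega
    · have h := hsA' ch (a1 := b) (a2 := b') (b1 := a) hb.1 hb'.1 ha.1 (by rw [hb.2, hb'.2])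
        (by rw [ha.2, hb.2]; exact hαβ.symm) hlt' hcol hη hW
      rw [ha.2, hb.2] at h
      have e : ∀ z, reg O u v z α (fun τ => 0 < η * (τ - v a)) = reg O u v z α (fun σ => v a < σ) := by
        intro z; congr 1; funext τ
        apply propext
        constructor
        · intro h; by_contra hc; nlinarith
        · intro h; exact mul_pos hpos (by linarith)
      rw [e, e] at h
      have h1 := gt b mb
      have h2 := gt b' mb'
      have h3 := cor b mb
      omega

/-- two adjacent columns with at least two points each -/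
theorem cols_two {C : ι → ι → ι → Prop} {O : ι} {u v : ι → ℝ} (ch : Chart C O u v)
    {α β : ℝ} (hαβ : α ≠ β) {η : ℝ} (hη : η ≠ 0)
    (hvb : ∀ w, w ≠ O → u w ≠ α → u w ≠ β → 0 < η * ((u w - α) * (u w - β)))
    (hA : 2 ≤ (colm O u α).card) (hB : 2 ≤ (colm O u β).card) :
    2 * ((colm O u α).card / 2) + 2 * ((colm O u β).card / 2) ≤
      ∑ a ∈ colm O u α, ebad C a (off O u a) + ∑ b ∈ colm O u β, ebad C b (off O u b) := by
  have h := comb_main (colm O u α) (colm O u β) v (fun b => η * v b)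
    (fun a => Hs C O u v a β η) (fun b => Hs C O u v b α 1)
    (by
      intro i hi j hj h
      rw [mem_colm] at hi hj
      exact ch.inj i j hi.1 hj.1 (by rw [hi.2, hj.2]) h)
    (by
      intro i hi j hj h
      rw [mem_colm] at hi hj
      exact ch.inj i j hi.1 hj.1 (by rw [hi.2, hj.2]) (mul_left_cancel₀ hη h))
    (cond1 ch hαβ hη hvb) (cond4 ch hαβ hη hvb)
    (fun b hb b' hb' h1 h2 a ha => (cond23 ch hαβ hη hvb b hb b' hb' h1 h2 a ha).1)
    (fun b hb b' hb' h1 h2 a ha => (cond23 ch hαβ hη hvb b hb b' hb' h1 h2 a ha).2) hA hB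
  have e1 : ∑ a ∈ colm O u α, (Hs C O u v a β η).card =
      ∑ a ∈ colm O u α, ebad C a (off O u a) := by
    refine sum_congr rfl (fun a ha => ?_)
    rw [mem_colm] at ha
    exact Hs_card ch ha.1 (by rw [ha.2]; exact hαβ.symm) hη
  have e2 : ∑ b ∈ colm O u β, (Hs C O u v b α 1).card =
      ∑ b ∈ colm O u β, ebad C b (off O u b) := by
    refine sum_congr rfl (fun b hb => ?_)
    rw [mem_colm] at hb
    exact Hs_card ch hb.1 (by rw [hb.2]; exact hαβ) one_ne_zero
  rw [e1, e2] at h
  exact h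

/-- a column next to a column with one point -/
theorem cols_one {C : ι → ι → ι → Prop} {O : ι} {u v : ι → ℝ} (ch : Chart C O u v)
    {α β : ℝ} (hαβ : α ≠ β) {η : ℝ} (hη : η ≠ 0)
    (hvb : ∀ w, w ≠ O → u w ≠ α → u w ≠ β → 0 < η * ((u w - α) * (u w - β)))
    (hA : 1 ≤ (colm O u α).card) {b : ι} (hB : b ∈ colm O u β)
    (hev : ∀ a ∈ colm O u α, Even (ebad C a (off O u a))) :
    (colm O u α).card - 1 ≤
      ∑ a ∈ colm O u α, ebad C a (off O u a) + ebad C b (off O u b) := by
  have h := comb_one (colm O u α) b v (fun b => η * v b)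
    (fun a => Hs C O u v a β η) (fun b => Hs C O u v b α 1)
    (by
      intro i hi j hj h
      rw [mem_colm] at hi hj
      exact ch.inj i j hi.1 hj.1 (by rw [hi.2, hj.2]) h)
    (fun a ha a' ha' h1 h2 => cond1 ch hαβ hη hvb a ha a' ha' h1 h2 b hB)
    (by
      intro a ha
      rw [Hs_card ch (mem_colm.mp ha).1 (by rw [(mem_colm.mp ha).2]; exact hαβ.symm) hη]
      exact hev a ha) hA
  have e1 : ∑ a ∈ colm O u α, (Hs C O u v a β η).card =
      ∑ a ∈ colm O u α, ebad C a (off O u a) := by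
    refine sum_congr rfl (fun a ha => ?_)
    rw [mem_colm] at ha
    exact Hs_card ch ha.1 (by rw [ha.2]; exact hαβ.symm) hη
  rw [mem_colm] at hB
  rw [e1, Hs_card ch hB.1 (by rw [hB.2]; exact hαβ) one_ne_zero] at h
  exact h

end Pool.Agent.Dirac86
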