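import Mathlib
import Pool.Agent.Dirac80.Defs
import Pool.Agent.Dirac80.Parity
import Pool.Agent.Dirac80.EvenB
import Pool.Agent.Dirac80.EvenC
import Pool.Agent.Dirac86.Ext
import Pool.Agent.Dirac86.Att

/-!
# The index of a point
-/

set_option autoImplicit false
set_option linter.unusedSectionVars false
open Finset Classical

namespace Pool.Agent.Dirac86.KM

open Pool.Agent.Dirac80 (Lin Ln mem_Ln Pl area pl_ext exists_of_area collinear_of_area
  area_of_collinear connectingLines mem_connecting connecting_eq Col col_lin tr tr_card mem_tr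
  tr_connecting double_count ordinary_eq)
open Pool.Agent.Dirac80b

theorem sl_swap {ι : Type*} {u v : ι → ℝ} (a b : ι) : sl u v (b, a) = sl u v (a, b) := by
  unfold sl
  simp only
  rw [← neg_div_neg_eq, neg_sub, neg_sub]

theorem ic_swap {ι : Type*} {u v : ι → ℝ} {a b : ι} (h : u a ≠ u b) :
    ic u v (b, a) = ic u v (a, b) := by
  have h1 : onl u v (a, b) b := onl_right (q := (a, b)) h
  unfold onl at h1
  have h2 : ic u v (b, a) = v b - sl u v (b, a) * u b := rfl
  rw [h2, sl_swap]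
  linarith

theorem onl_swap {ι : Type*} {u v : ι → ℝ} {a b s : ι} (h : u a ≠ u b) :
    onl u v (b, a) s ↔ onl u v (a, b) s := by
  unfold onl
  rw [sl_swap, ic_swap h]

section plane

variable {S : Finset Pl}

/-- the chart data at a point -/
structure Dat (O : {p // p ∈ S}) (u v Y : {p // p ∈ S} → ℝ) : Prop where
  ch : Chart (Col S) O u v
  Y0 : ∀ p, p ≠ O → Y p ≠ 0
  ar : ∀ i j, i ≠ O → j ≠ O → area O.1 i.1 j.1 = Y i * Y j * (u i - u j)
  vY : ∀ i, v i = 1 / Y i

theorem prod_formula {O : {p // p ∈ S}} {u v Y : {p // p ∈ S} → ℝ} (D : Dat O u v Y)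
    {a b s : {p // p ∈ S}} (ha : a ≠ O) (hb : b ≠ O) (hs : s ≠ O) (hab : u a ≠ u b) :
    area a.1 b.1 s.1 * area a.1 b.1 O.1 * area b.1 O.1 s.1 =
      (Y a) ^ 2 * (Y b) ^ 3 * (Y s) ^ 2 * (u b - u a) ^ 2 *
        ((v s - (sl u v (a, b) * u s + ic u v (a, b))) * (u s - u b)) := by
  have ya := D.Y0 a ha
  have yb := D.Y0 b hb
  have ys := D.Y0 s hs
  have e1 : area a.1 b.1 s.1 = area O.1 a.1 b.1 + area O.1 b.1 s.1 + area O.1 s.1 a.1 := by
    unfold area; ring
  have e2 : area a.1 b.1 O.1 = area O.1 a.1 b.1 := by unfold area; ring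
  have e3 : area b.1 O.1 s.1 = area O.1 s.1 b.1 := by unfold area; ring
  have h1 : u b - u a ≠ 0 := sub_ne_zero.mpr hab.symm
  have e4 : (v s - (sl u v (a, b) * u s + ic u v (a, b))) * (u b - u a) =
      (u b - u a) * (v s - v a) - (v b - v a) * (u s - u a) := by
    have : sl u v (a, b) * (u b - u a) = v b - v a := by
      unfold sl; simp only; exact div_mul_cancel₀ _ h1
    have h2 : ic u v (a, b) = v a - sl u v (a, b) * u a := rfl
    rw [h2]
    linear_combination -(u s - u a) * this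
  have e5 : Y a * Y b * Y s * ((u b - u a) * (v s - v a) - (v b - v a) * (u s - u a)) =
      -(Y a * Y b * (u a - u b) + Y b * Y s * (u b - u s) + Y s * Y a * (u s - u a)) := by
    rw [D.vY a, D.vY b, D.vY s]
    field_simp
    ring
  rw [e1, e2, e3, D.ar a b ha hb, D.ar b s hb hs, D.ar s a hs ha, D.ar s b hs hb]
  set δ := v s - (sl u v (a, b) * u s + ic u v (a, b)) with hδ
  have e6 : Y a * Y b * (u a - u b) + Y b * Y s * (u b - u s) + Y s * Y a * (u s - u a) =
      -(Y a * Y b * Y s * (δ * (u b - u a))) := by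
    rw [e4]; linarith
  rw [e6]
  ring

theorem side_of {O : {p // p ∈ S}} {u v Y : {p // p ∈ S} → ℝ} (D : Dat O u v Y)
    {η x : ℝ} (hη : η ≠ 0) {P : Finset {p // p ∈ S}} (hP : ∀ i, i ∈ P ↔ i ≠ O)
    {a b : {p // p ∈ S}} (h : ExtAt P u v η x (a, b)) (hx : ∀ i ∈ P, u i ≠ x) :
    side S 1 a.1 b.1 b.1 O.1 ∨ side S (-1) a.1 b.1 b.1 O.1 := by
  obtain ⟨⟨haP, hbP⟩, hab⟩ := mem_Q.mp h.1
  simp only at haP hbP hab
  have ha := (hP a).mp haP
  have hb := (hP b).mp hbP
  have yb := D.Y0 b hb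
  have hxb : x - u b ≠ 0 := sub_ne_zero.mpr (hx b hbP).symm
  -- the product with a fixed factor is nonpositive
  have key : ∀ s ∈ S, (area a.1 b.1 s * area a.1 b.1 O.1 * area b.1 O.1 s) *
      (η * Y b * (x - u b)) ≤ 0 := by
    intro s hs
    by_cases hsO : (⟨s, hs⟩ : {p // p ∈ S}) = O
    · have : s = O.1 := by rw [← hsO]
      rw [this]
      have e : area b.1 O.1 O.1 = 0 := by unfold area; ring
      rw [e]; simp
    · have h1 := prod_formula D ha hb hsO hab
      simp only at h1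
      rw [h1]
      have hsP := (hP ⟨s, hs⟩).mpr hsO
      by_cases hon : onl u v (a, b) ⟨s, hs⟩
      · have : v ⟨s, hs⟩ - (sl u v (a, b) * u ⟨s, hs⟩ + ic u v (a, b)) = 0 := by
          unfold onl at hon; linarith
        rw [this]; simp
      · by_cases hub : u ⟨s, hs⟩ = u b
        · rw [hub]; simp
        · have h2 := ext_key h hbP hsP (onl_right (q := (a, b)) hab) hub hon
          set δ := v ⟨s, hs⟩ - (sl u v (a, b) * u ⟨s, hs⟩ + ic u v (a, b)) with hδ
          have h3 : (Y a) ^ 2 * (Y b) ^ 3 * (Y ⟨s, hs⟩) ^ 2 * (u b - u a) ^ 2 *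
              (δ * (u ⟨s, hs⟩ - u b)) * (η * Y b * (x - u b)) =
              ((Y a) ^ 2 * ((Y b) ^ 2) ^ 2 * (Y ⟨s, hs⟩) ^ 2 * (u b - u a) ^ 2) *
                (η * δ * ((x - u b) * (u ⟨s, hs⟩ - u b))) := by ring
          rw [h3]
          exact mul_nonpos_of_nonneg_of_nonpos (by positivity) h2.le
  have hk : η * Y b * (x - u b) ≠ 0 := mul_ne_zero (mul_ne_zero hη yb) hxb
  rcases lt_or_gt_of_ne hk with hk | hk
  · left
    intro s hs
    have := key s hs
    rw [one_mul]
    by_contra hcon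
    push Not at hcon
    have := mul_pos_of_neg_of_neg hcon hk
    linarith
  · right
    intro s hs
    have := key s hs
    by_contra hcon
    push Not at hcon
    have := mul_pos (by linarith : 0 < area a.1 b.1 s * area a.1 b.1 O.1 * area b.1 O.1 s) hk
    linarith

theorem ext_swap {ι : Type*} {P : Finset ι} {u v : ι → ℝ} {η x : ℝ} {a b : ι}
    (h : ExtAt P u v η x (a, b)) : ExtAt P u v η x (b, a) := by
  obtain ⟨⟨haP, hbP⟩, hab⟩ := mem_Q.mp h.1
  simp only at haP hbP hab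
  refine ⟨mem_Q.mpr ⟨⟨hbP, haP⟩, hab.symm⟩, fun r hr => ?_⟩
  rw [sl_swap a b, ic_swap hab]
  exact h.2 r hr

theorem att_of {O : {p // p ∈ S}} {u v Y : {p // p ∈ S} → ℝ} (D : Dat O u v Y)
    {η x : ℝ} (hη : η ≠ 0) {P : Finset {p // p ∈ S}} (hP : ∀ i, i ∈ P ↔ i ≠ O)
    {a b : {p // p ∈ S}} (h : ExtAt P u v η x (a, b)) (hx : ∀ i ∈ P, u i ≠ x) :
    att S O.1 a.1 b.1 :=
  ⟨side_of D hη hP h hx,
    (side_of D hη hP (ext_swap h) hx).imp (side_comm S) (side_comm S)⟩

theorem col_iff {O : {p // p ∈ S}} {u v Y : {p // p ∈ S} → ℝ} (D : Dat O u v Y)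
    {a b s : {p // p ∈ S}} (ha : a ≠ O) (hb : b ≠ O) (hab : u a ≠ u b) :
    Col S a b s ↔ s ≠ O ∧ onl u v (a, b) s := by
  have h1 : u b - u a ≠ 0 := sub_ne_zero.mpr hab.symm
  by_cases hs : s = O
  · subst hs
    simp only [ne_eq, not_true_eq_false, false_and, iff_false]
    intro h
    have h2 : Col S s a b := D.ch.lin.hs' _ _ _ (D.ch.lin.hs _ _ _ h) |> fun h => by
      unfold Col area at *; linarith
    exact hab ((D.ch.hO a b ha hb).mp h2)
  · rw [D.ch.hC a b s ha hb hs]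
    simp only [hs, ne_eq, not_false_eq_true, true_and]
    have : sl u v (a, b) * (u b - u a) = v b - v a := by
      unfold sl; simp only; exact div_mul_cancel₀ _ h1
    have h2 : ic u v (a, b) = v a - sl u v (a, b) * u a := rfl
    unfold onl
    rw [h2]
    constructor
    · intro h
      have h3 : (u b - u a) * (v s - (sl u v (a, b) * u s + (v a - sl u v (a, b) * u a))) = 0 := by
        linear_combination h - (u s - u a) * this
      have h4 := (mul_eq_zero.mp h3).resolve_left h1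
      linarith
    · intro h
      rw [h]
      linear_combination (u s - u a) * this

/-- an extreme line with two points is an attached ordinary line -/
theorem mem_rk {O : {p // p ∈ S}} {u v Y : {p // p ∈ S} → ℝ} (D : Dat O u v Y)
    {η x : ℝ} (hη : η ≠ 0) {P : Finset {p // p ∈ S}} (hP : ∀ i, i ∈ P ↔ i ≠ O)
    {q : {p // p ∈ S} × {p // p ∈ S}} (h : ExtAt P u v η x q) (hx : ∀ i ∈ P, u i ≠ x)
    (h2 : ∀ i ∈ P, onl u v q i → i = q.1 ∨ i = q.2) :
    ({q.1.1, q.2.1} : Finset Pl) ∈ rk S O.1 := by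
  obtain ⟨a, b⟩ := q
  obtain ⟨⟨haP, hbP⟩, hab⟩ := mem_Q.mp h.1
  simp only at haP hbP hab h2 ⊢
  have ha := (hP a).mp haP
  have hb := (hP b).mp hbP
  have hne : a ≠ b := fun h => hab (by rw [h])
  have hne' : a.1 ≠ b.1 := fun h => hne (Subtype.ext h)
  have htr : tr S (Ln (Col S) a b) = {a.1, b.1} := by
    ext y
    rw [mem_tr, mem_insert, mem_singleton]
    constructor
    · rintro ⟨hy, h3⟩
      rw [mem_Ln, col_iff D ha hb hab] at h3
      rcases h2 ⟨y, hy⟩ ((hP _).mpr h3.1) h3.2 with h4 | h4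
      · left; rw [← h4]
      · right; rw [← h4]
    · rintro (rfl | rfl)
      · exact ⟨a.2, (col_lin S).left_mem _ _⟩
      · exact ⟨b.2, (col_lin S).right_mem _ _⟩
  unfold rk
  rw [mem_filter]
  refine ⟨htr ▸ tr_connecting S a b hne, card_pair hne', ?_, a.1, b.1, rfl,
    att_of D hη hP h hx⟩
  rw [mem_insert, mem_singleton]
  rintro (h3 | h3)
  · exact ha (Subtype.ext h3.symm)
  · exact hb (Subtype.ext h3.symm)

theorem line_of_pair {ι : Type*} {κ : Type*} [DecidableEq κ] (f : ι → κ) (hf : Function.Injective f) {u v : ι → ℝ}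
    {q r : ι × ι} (hq : u q.1 ≠ u q.2) (h : ({f q.1, f q.2} : Finset κ) = {f r.1, f r.2}) :
    sl u v q = sl u v r ∧ ic u v q = ic u v r := by
  obtain ⟨a, b⟩ := q
  obtain ⟨c, d⟩ := r
  simp only at hq h
  have hab : f a ≠ f b := fun h' => hq (by rw [hf h'])
  have h1 : f a ∈ ({f c, f d} : Finset κ) := by rw [← h]; simp
  have h2 : f b ∈ ({f c, f d} : Finset κ) := by rw [← h]; simp
  rw [mem_insert, mem_singleton] at h1 h2
  rcases h1 with h1 | h1 <;> rcases h2 with h2 | h2
  · exact absurd (h1.trans h2.symm) hab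
  · rw [hf h1, hf h2]; exact ⟨rfl, rfl⟩
  · obtain rfl := hf h1
    obtain rfl := hf h2
    exact ⟨sl_swap _ _, ic_swap hq.symm⟩
  · exact absurd (h1.trans h2.symm) hab

/-- the highest and the lowest line at a generic abscissa are different -/
theorem hi_ne_lo {ι : Type*} {P : Finset ι} {u v : ι → ℝ} {x : ℝ}
    {q q' : ι × ι} (h : ExtAt P u v 1 x q) (h' : ExtAt P u v (-1) x q')
    (h2 : ∃ r ∈ Q P u, ∃ r' ∈ Q P u, ¬ (sl u v r' = sl u v r ∧ ic u v r' = ic u v r)) :
    ¬ (sl u v q = sl u v q' ∧ ic u v q = ic u v q') := by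
  rintro ⟨e1, e2⟩
  obtain ⟨r, hr, r', hr', hne⟩ := h2
  have all : ∀ r ∈ Q P u, sl u v r = sl u v q ∧ ic u v r = ic u v q := by
    intro r hr
    rcases h.2 r hr with h1 | h1
    · rcases h'.2 r hr with h3 | h3
      · rw [← e1, ← e2] at h3
        linarith
      · exact ⟨h3.1.trans e1.symm, h3.2.trans e2.symm⟩
    · exact h1
  apply hne
  exact ⟨(all r' hr').1.trans (all r hr).1.symm, (all r' hr').2.trans (all r hr).2.symm⟩

end plane

end Pool.Agent.Dirac86.KM
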