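import Mathlib
import Pool.Agent.Dirac80.Defs
import Pool.Agent.Dirac80.Parity
import Pool.Agent.Dirac80.EvenB
import Pool.Agent.Dirac80.EvenC
import Pool.Agent.Dirac86.Ext
import Pool.Agent.Dirac86.Att
import Pool.Agent.Dirac86.KM

/-!
# The index inequality
-/

set_option autoImplicit false
set_option linter.unusedSectionVars false
open Finset Classical

namespace Pool.Agent.Dirac86.KM

open Pool.Agent.Dirac80 (Lin Ln mem_Ln Pl area pl_ext exists_of_area collinear_of_area
  area_of_collinear connectingLines mem_connecting connecting_eq Col col_lin tr tr_card mem_tr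
  tr_connecting double_count ordinary_eq)
open Pool.Agent.Dirac80b

section plane

variable {S : Finset Pl}

theorem rank_three {O : {p // p ∈ S}} {u v Y : {p // p ∈ S} → ℝ} (D : Dat O u v Y)
    {P : Finset {p // p ∈ S}} (hP : ∀ i, i ∈ P ↔ i ≠ O)
    (hcol : ∃ i ∈ P, ∃ j ∈ P, u i ≠ u j)
    (hno : ∀ i ∈ P, ∃ j ∈ P, j ≠ i ∧ u j = u i) : 3 ≤ (rk S O.1).card := by
  have inj : ∀ i ∈ P, ∀ j ∈ P, u i = u j → v i = v j → i = j := fun i hi j hj =>
    D.ch.inj i j ((hP i).mp hi) ((hP j).mp hj)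
  obtain ⟨a, ha, b, hb, hab⟩ := hcol
  obtain ⟨a', ha', haa, hua⟩ := hno a ha
  obtain ⟨b', hb', hbb, hub⟩ := hno b hb
  have hva : v a ≠ v a' := fun h => haa (inj a ha a' ha' hua.symm h).symm
  have hvb : v b ≠ v b' := fun h => hbb (inj b hb b' hb' hub.symm h).symm
  have hQ : (Q P u).Nonempty := ⟨(a, b), mem_Q.mpr ⟨⟨ha, hb⟩, hab⟩⟩
  have h2l := two_lines (v := v) ha hb hb' hab hub.symm hvb
  -- extreme lines are attached
  have hext : ∀ (η : ℝ), η ≠ 0 → ∀ x ∉ Bd P u v, ∀ q, ExtAt P u v η x q →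
      ({q.1.1, q.2.1} : Finset Pl) ∈ rk S O.1 := by
    intro η hη x hx q hq
    refine mem_rk D hη hP hq (fun i hi => gen_col hx hi) ?_
    intro i hi hon
    by_contra hcon
    push Not at hcon
    have hq' := mem_Q.mp hq.1
    obtain ⟨m, hm, hsing, -⟩ := ext_three inj hq (fun i hi => gen_col hx hi) hq'.1.1 hq'.1.2 hi
      onl_left (onl_right hq'.2) hon (fun h => hq'.2 (by rw [h])) (Ne.symm hcon.1)
      (Ne.symm hcon.2)
    obtain ⟨j, hj, hjm, huj⟩ := hno m hm
    exact hjm (hsing j hj huj)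
  by_contra hcard
  push Not at hcard
  obtain ⟨x0, hx0⟩ := Infinite.exists_notMem_finset (Bd P u v)
  obtain ⟨q1, hq1⟩ := ext_exists (η := 1) hQ one_ne_zero hx0
  obtain ⟨q2, hq2⟩ := ext_exists (η := -1) hQ (by norm_num) hx0
  have hne := hi_ne_lo hq1 hq2 h2l
  have m1 := hext 1 one_ne_zero x0 hx0 q1 hq1
  have m2 := hext (-1) (by norm_num) x0 hx0 q2 hq2
  have hT12 : ({q1.1.1, q1.2.1} : Finset Pl) ≠ {q2.1.1, q2.2.1} := fun h =>
    hne (line_of_pair Subtype.val Subtype.val_injective (mem_Q.mp hq1.1).2 h)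
  have htwo : ∀ T ∈ rk S O.1, T = {q1.1.1, q1.2.1} ∨ T = {q2.1.1, q2.2.1} := by
    intro T hT
    by_contra hcon
    push Not at hcon
    have hsub : ({T, {q1.1.1, q1.2.1}, {q2.1.1, q2.2.1}} : Finset (Finset Pl)) ⊆ rk S O.1 := by
      intro T' hT'
      simp only [mem_insert, mem_singleton] at hT'
      rcases hT' with rfl | rfl | rfl
      · exact hT
      · exact m1
      · exact m2
    have h3 := card_le_card hsub
    rw [card_insert_of_notMem (by simp [hcon.1, hcon.2]), card_pair hT12] at h3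
    omega
  refine pencil_of_two (P := P) (u := u) (v := v) (m1 := sl u v q1) (c1 := ic u v q1)
    (m2 := sl u v q2) (c2 := ic u v q2) hne ?_ ha ha' hb hb' hua.symm hub.symm hab hva hvb
  intro x hx r hr
  obtain ⟨q, hq⟩ := ext_exists (η := 1) hQ one_ne_zero hx
  obtain ⟨q', hq'⟩ := ext_exists (η := -1) hQ (by norm_num) hx
  have hn := hi_ne_lo hq hq' h2l
  have e1 : sl u v r * x + ic u v r ≤ sl u v q * x + ic u v q := by
    rcases hq.2 r hr with h | h
    · linarith
    · rw [h.1, h.2]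
  have e2 : sl u v q' * x + ic u v q' ≤ sl u v r * x + ic u v r := by
    rcases hq'.2 r hr with h | h
    · linarith
    · rw [h.1, h.2]
  have uq := (mem_Q.mp hq.1).2
  have uq' := (mem_Q.mp hq'.1).2
  rcases htwo _ (hext 1 one_ne_zero x hx q hq) with t1 | t1 <;>
    rcases htwo _ (hext (-1) (by norm_num) x hx q' hq') with t2 | t2
  · exact absurd (line_of_pair Subtype.val Subtype.val_injective uq (t1.trans t2.symm)) hn
  · obtain ⟨s1, i1⟩ := line_of_pair Subtype.val Subtype.val_injective uq t1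
    obtain ⟨s2, i2⟩ := line_of_pair Subtype.val Subtype.val_injective uq' t2
    rw [← s1, ← i1, ← s2, ← i2]
    exact mul_nonpos_of_nonpos_of_nonneg (by linarith) (by linarith)
  · obtain ⟨s1, i1⟩ := line_of_pair Subtype.val Subtype.val_injective uq t1
    obtain ⟨s2, i2⟩ := line_of_pair Subtype.val Subtype.val_injective uq' t2
    rw [← s1, ← i1, ← s2, ← i2]
    exact mul_nonpos_of_nonneg_of_nonpos (by linarith) (by linarith)
  · exact absurd (line_of_pair Subtype.val Subtype.val_injective uq (t1.trans t2.symm)) hn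

theorem rank_two {O : {p // p ∈ S}} {u v Y : {p // p ∈ S} → ℝ} (D : Dat O u v Y)
    {P : Finset {p // p ∈ S}} (hP : ∀ i, i ∈ P ↔ i ≠ O)
    (hcol : ∃ i ∈ P, ∃ j ∈ P, u i ≠ u j) {m : {p // p ∈ S}} (hm : m ∈ P)
    (hno : ∀ i ∈ P, u i ≠ u m → ∃ j ∈ P, j ≠ i ∧ u j = u i) : 2 ≤ (rk S O.1).card := by
  have inj : ∀ i ∈ P, ∀ j ∈ P, u i = u j → v i = v j → i = j := fun i hi j hj =>
    D.ch.inj i j ((hP i).mp hi) ((hP j).mp hj)
  obtain ⟨b, hb, hmb⟩ : ∃ b ∈ P, u m ≠ u b := by
    obtain ⟨i, hi, j, hj, hij⟩ := hcol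
    by_cases h : u m = u i
    · exact ⟨j, hj, h ▸ hij⟩
    · exact ⟨i, hi, h⟩
  obtain ⟨b', hb', hbb, hub⟩ := hno b hb (Ne.symm hmb)
  have hvb : v b ≠ v b' := fun h => hbb (inj b hb b' hb' hub.symm h).symm
  have hQ : (Q P u).Nonempty := ⟨(m, b), mem_Q.mpr ⟨⟨hm, hb⟩, hmb⟩⟩
  have h2l := two_lines (v := v) hm hb hb' hmb hub.symm hvb
  -- an abscissa just to the right of `u m`
  obtain ⟨t, ht, htk⟩ : ∃ t, u m < t ∧ ∀ k ∈ P, u k ≤ u m ∨ t ≤ u k := by
    by_cases hne : (P.filter (fun k => u m < u k)).Nonempty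
    · obtain ⟨k0, hk0, hmin⟩ := exists_min_image _ u hne
      refine ⟨u k0, (mem_filter.mp hk0).2, fun k hk => ?_⟩
      by_cases h : u m < u k
      · exact Or.inr (hmin k (mem_filter.mpr ⟨hk, h⟩))
      · exact Or.inl (not_lt.mp h)
    · refine ⟨u m + 1, by linarith, fun k hk => Or.inl ?_⟩
      by_contra h
      push Not at h
      exact hne ⟨k, mem_filter.mpr ⟨hk, h⟩⟩
  obtain ⟨x, hxI, hx⟩ := (Set.Ioo_infinite ht).exists_notMem_finset (Bd P u v)
  have hext : ∀ (η : ℝ), η ≠ 0 → ∀ q, ExtAt P u v η x q →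
      ({q.1.1, q.2.1} : Finset Pl) ∈ rk S O.1 := by
    intro η hη q hq
    refine mem_rk D hη hP hq (fun i hi => gen_col hx hi) ?_
    intro i hi hon
    by_contra hcon
    push Not at hcon
    have hq' := mem_Q.mp hq.1
    obtain ⟨c, hc, hsing, k, hk, hkc, hlt⟩ := ext_three inj hq (fun i hi => gen_col hx hi)
      hq'.1.1 hq'.1.2 hi
      onl_left (onl_right hq'.2) hon (fun h => hq'.2 (by rw [h])) (Ne.symm hcon.1)
      (Ne.symm hcon.2)
    have hcm : u c = u m := by
      by_contra h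
      obtain ⟨j, hj, hjc, huj⟩ := hno c hc h
      exact hjc (hsing j hj huj)
    rw [hcm] at hlt hkc
    have n1 : u m - x < 0 := by linarith [hxI.1]
    rcases htk k hk with h | h
    · have h1 : u k - x < u m - x := by
        have := lt_of_le_of_ne h hkc
        linarith
      have := one_div_lt_one_div_of_neg_of_lt n1 h1
      linarith
    · have h1 : 0 < u k - x := by linarith [hxI.2]
      have h2 : 0 < 1 / (u k - x) := by positivity
      have h3 : 1 / (u m - x) < 0 := one_div_neg.mpr n1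
      linarith
  obtain ⟨q1, hq1⟩ := ext_exists (η := 1) hQ one_ne_zero hx
  obtain ⟨q2, hq2⟩ := ext_exists (η := -1) hQ (by norm_num) hx
  have hne := hi_ne_lo hq1 hq2 h2l
  have m1 := hext 1 one_ne_zero q1 hq1
  have m2 := hext (-1) (by norm_num) q2 hq2
  have hT12 : ({q1.1.1, q1.2.1} : Finset Pl) ≠ {q2.1.1, q2.2.1} := fun h =>
    hne (line_of_pair Subtype.val Subtype.val_injective (mem_Q.mp hq1.1).2 h)
  have : 1 < (rk S O.1).card := one_lt_card.mpr ⟨_, m1, _, m2, hT12⟩
  omega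

/-- the ordinary lines through a point -/
noncomputable def od (S : Finset Pl) (p : Pl) : Finset (Finset Pl) :=
  (connectingLines S).filter (fun T => T.card = 2 ∧ p ∈ T)

theorem single_od {O : {p // p ∈ S}} {u v Y : {p // p ∈ S} → ℝ} (D : Dat O u v Y)
    {P : Finset {p // p ∈ S}} (hP : ∀ i, i ∈ P ↔ i ≠ O) {i : {p // p ∈ S}} (hi : i ∈ P)
    (hs : ∀ s ∈ P, u s = u i → s = i) : ({O.1, i.1} : Finset Pl) ∈ od S O.1 := by
  have hiO := (hP i).mp hi
  have htr : tr S (Ln (Col S) O i) = {O.1, i.1} := by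
    ext y
    rw [mem_tr, mem_insert, mem_singleton]
    constructor
    · rintro ⟨hy, h3⟩
      rw [mem_Ln] at h3
      by_cases hyO : (⟨y, hy⟩ : {p // p ∈ S}) = O
      · left; rw [← hyO]
      · rw [D.ch.hO i _ hiO hyO] at h3
        have := hs ⟨y, hy⟩ ((hP _).mpr hyO) h3.symm
        right; rw [← this]
    · rintro (rfl | rfl)
      · exact ⟨O.2, (col_lin S).left_mem _ _⟩
      · exact ⟨i.2, (col_lin S).right_mem _ _⟩
  unfold od
  rw [mem_filter]
  exact ⟨htr ▸ tr_connecting S O i hiO.symm,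
    card_pair (fun h => hiO (Subtype.ext h.symm)), by simp⟩

theorem index (hS : ¬ Collinear ℝ (S : Set Pl)) {o : Pl} (ho : o ∈ S) :
    7 ≤ 3 * (od S o).card + 2 * (rk S o).card + (if Even (od S o).card then 1 else 0) := by
  set O : {p // p ∈ S} := ⟨o, ho⟩ with hO
  obtain ⟨u, v, Y, ch, h1, h2, h3, -⟩ := exists_chart S O
  have D : Dat O u v Y := ⟨ch, h1, h2, h3⟩
  obtain ⟨P, hP⟩ : ∃ P : Finset {p // p ∈ S}, ∀ i, i ∈ P ↔ i ≠ O :=
    ⟨univ.filter (fun i => i ≠ O), fun i => by simp⟩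
  have hcol : ∃ i ∈ P, ∃ j ∈ P, u i ≠ u j := by
    by_contra hcon
    push Not at hcon
    apply hS
    by_cases hex : ∃ q ∈ S, q ≠ o
    · obtain ⟨q, hq, hqo⟩ := hex
      refine collinear_of_area (Ne.symm hqo) _ (by exact_mod_cast ho) ?_
      intro r hr
      have hr' : r ∈ S := by exact_mod_cast hr
      by_cases hro : r = o
      · rw [hro]; unfold area; ring
      · have hq' : (⟨q, hq⟩ : {p // p ∈ S}) ≠ O := fun h => hqo (congrArg Subtype.val h)
        have hr'' : (⟨r, hr'⟩ : {p // p ∈ S}) ≠ O := fun h => hro (congrArg Subtype.val h)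
        exact (ch.hO ⟨q, hq⟩ ⟨r, hr'⟩ hq' hr'').mpr
          (hcon _ ((hP _).mpr hq') _ ((hP _).mpr hr''))
    · push Not at hex
      have : (S : Set Pl) ⊆ {o} := by
        intro x hx
        exact hex x (by exact_mod_cast hx)
      exact (collinear_singleton ℝ o).subset this
  by_cases hsing : ∃ m ∈ P, ∀ s ∈ P, u s = u m → s = m
  · obtain ⟨m, hm, hms⟩ := hsing
    have m1 := single_od D hP hm hms
    by_cases h2' : ∃ i ∈ P, u i ≠ u m ∧ ∀ s ∈ P, u s = u i → s = i
    · obtain ⟨i, hi, him, his⟩ := h2'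
      have m2 := single_od D hP hi his
      have hne : ({O.1, m.1} : Finset Pl) ≠ {O.1, i.1} := by
        intro h
        have h4 : m.1 ∈ ({O.1, i.1} : Finset Pl) := by rw [← h]; simp
        rw [mem_insert, mem_singleton] at h4
        rcases h4 with h4 | h4
        · exact (hP m).mp hm (Subtype.ext h4)
        · exact him (by rw [Subtype.ext h4])
      have h5 : 1 < (od S O.1).card := one_lt_card.mpr ⟨_, m1, _, m2, hne⟩
      have h6 : (od S o).card = (od S O.1).card := rfl
      by_cases h7 : (od S o).card = 2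
      · rw [h7, if_pos even_two]; omega
      · omega
    · push Not at h2'
      have h5 := rank_two D hP hcol hm (fun i hi him => by
        obtain ⟨s, hs, hus, hne⟩ := h2' i hi him
        exact ⟨s, hs, hne, hus⟩)
      have h6 : 0 < (od S O.1).card := card_pos.mpr ⟨_, m1⟩
      have h7 : (od S o).card = (od S O.1).card := rfl
      have h8 : (rk S o).card = (rk S O.1).card := rfl
      omega
  · push Not at hsing
    have h5 := rank_three D hP hcol (fun i hi => by
      obtain ⟨s, hs, hus, hne⟩ := hsing i hi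
      exact ⟨s, hs, hne, hus⟩)
    have h8 : (rk S o).card = (rk S O.1).card := rfl
    by_cases h9 : (od S o).card = 0
    · rw [h9, if_pos (by simp)]; omega
    · omega

end plane

end Pool.Agent.Dirac86.KM
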