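import Mathlib
import Pool.Agent.Dirac80.Defs
import Pool.Agent.Dirac80.Parity
import Pool.Agent.Dirac80.EvenB
import Pool.Agent.Dirac80.EvenC
import Pool.Agent.Dirac86.Index

/-!
# The Kelly-Moser inequality with parity
-/

set_option autoImplicit false
set_option linter.unusedSectionVars false
open Finset

namespace Pool.Agent.Dirac86.KM

open Pool.Agent.Dirac80 (Lin Ln mem_Ln Pl area pl_ext exists_of_area collinear_of_area
  area_of_collinear connectingLines mem_connecting connecting_eq Col col_lin tr tr_card mem_tr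
  tr_connecting double_count ordinary_eq)
open Pool.Agent.Dirac80b

section plane

variable (S : Finset Pl)

open Classical in
theorem ev_eq (x : {p // p ∈ S}) :
    ev S x = ((connectingLines S).filter (fun T => Even T.card ∧ x.1 ∈ T)).card := by
  unfold ev evn ebad
  refine Finset.card_bij (fun T _ => tr S T) ?_ ?_ ?_
  · intro T hT
    simp only [mem_filter, mem_image] at hT
    obtain ⟨⟨w, hw, rfl⟩, he⟩ := hT
    rw [mem_filter]
    exact ⟨tr_connecting S x w (erase_iff.mp hw).symm, by rw [tr_card]; exact he,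
      mem_tr_self S x w⟩
  · intro T _ T' _ h
    exact Finset.map_injective _ h
  · intro T hT
    rw [mem_filter] at hT
    obtain ⟨hT, he, hx⟩ := hT
    have hc := (mem_connecting.mp hT).2.1
    obtain ⟨w, hw, hwx⟩ : ∃ w ∈ T, w ≠ x.1 := by
      obtain ⟨w, hw, hne⟩ := exists_mem_ne (show 1 < T.card by omega) x.1
      exact ⟨w, hw, hne⟩
    have hwS := (mem_connecting.mp hT).1 hw
    have hxw : x ≠ ⟨w, hwS⟩ := fun h => hwx (by rw [h])
    have heq : tr S (Ln (Col S) x ⟨w, hwS⟩) = T := by
      have h1 := connecting_eq (tr_connecting S x ⟨w, hwS⟩ hxw) (mem_tr_self S x ⟨w, hwS⟩)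
        ((mem_tr S).mpr ⟨hwS, (col_lin S).right_mem _ _⟩) hwx.symm
      have h2 := connecting_eq hT hx hw hwx.symm
      rw [h1, h2]
    refine ⟨Ln (Col S) x ⟨w, hwS⟩, ?_, heq⟩
    simp only [mem_filter, mem_image]
    refine ⟨⟨⟨w, hwS⟩, erase_iff.mpr hxw.symm, rfl⟩, ?_⟩
    rw [← tr_card S, heq]
    exact he

theorem parity {p : Pl} (hp : p ∈ S) :
    Even (od S p).card ↔
      Odd (S.card +
        ((connectingLines S).filter (fun T => 4 ≤ T.card ∧ Even T.card ∧ p ∈ T)).card) := by
  classical
  have h1 := ev_parity S ⟨p, hp⟩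
  rw [ev_eq] at h1
  have h2 : (connectingLines S).filter (fun T => Even T.card ∧ p ∈ T) =
      od S p ∪ (connectingLines S).filter (fun T => 4 ≤ T.card ∧ Even T.card ∧ p ∈ T) := by
    ext T
    unfold od
    rw [mem_union, mem_filter, mem_filter, mem_filter]
    constructor
    · rintro ⟨hT, he, hpT⟩
      have h3 := (mem_connecting.mp hT).2.1
      by_cases h4 : 4 ≤ T.card
      · exact Or.inr ⟨hT, h4, he, hpT⟩
      · obtain ⟨a, ha⟩ := he
        exact Or.inl ⟨hT, by omega, hpT⟩
    · rintro (⟨hT, h2, hpT⟩ | ⟨hT, h4, he, hpT⟩)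
      · exact ⟨hT, by rw [h2]; exact even_two, hpT⟩
      · exact ⟨hT, he, hpT⟩
  have h3 : Disjoint (od S p)
      ((connectingLines S).filter (fun T => 4 ≤ T.card ∧ Even T.card ∧ p ∈ T)) := by
    rw [Finset.disjoint_left]
    intro T hT hT'
    unfold od at hT
    rw [mem_filter] at hT hT'
    omega
  have h4 := card_union_of_disjoint h3
  rw [← h2] at h4
  simp only at h1
  rw [h4] at h1
  generalize (od S p).card = a at *
  generalize ((connectingLines S).filter (fun T => 4 ≤ T.card ∧ Even T.card ∧ p ∈ T)).card = b at *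
  rw [Nat.even_iff] at *
  rw [Nat.odd_iff]
  omega

open Classical in
theorem kmp (hS : ¬ Collinear ℝ (S : Set Pl)) :
    7 * S.card ≤ 14 * {T : Finset Pl | T ⊆ S ∧ T.card = 2 ∧
        ∀ r ∈ S, r ∈ affineSpan ℝ (T : Set Pl) → r ∈ T}.ncard +
      (S.filter (fun p => Odd (S.card +
        ((connectingLines S).filter (fun T => 4 ≤ T.card ∧ Even T.card ∧ p ∈ T)).card))).card := by
  rw [ordinary_eq]
  have e1 : ∑ p ∈ S, (od S p).card =
      2 * ((connectingLines S).filter (fun T => T.card = 2)).card := by
    have h := double_count S ((connectingLines S).filter (fun T => T.card = 2)) (fun T hT =>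
      (mem_connecting.mp (mem_filter.mp hT).1).1)
    have h2 : ∑ T ∈ (connectingLines S).filter (fun T => T.card = 2), T.card =
        ∑ T ∈ (connectingLines S).filter (fun T => T.card = 2), 2 :=
      sum_congr rfl (fun T hT => (mem_filter.mp hT).2)
    rw [h2, sum_const, smul_eq_mul, mul_comm] at h
    rw [← h]
    refine sum_congr rfl (fun p _ => ?_)
    unfold od
    rw [filter_filter]
  have e2 := rk_sum S
  have e3 : (S.filter (fun p => Odd (S.card +
        ((connectingLines S).filter (fun T => 4 ≤ T.card ∧ Even T.card ∧ p ∈ T)).card))).card =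
      ∑ p ∈ S, (if Even (od S p).card then 1 else 0) := by
    rw [card_filter]
    refine sum_congr rfl (fun p hp => ?_)
    by_cases h : Even (od S p).card
    · rw [if_pos h, if_pos ((parity S hp).mp h)]
    · rw [if_neg h, if_neg (fun h' => h ((parity S hp).mpr h'))]
  have e4 : ∑ p ∈ S, 7 ≤ ∑ p ∈ S, (3 * (od S p).card + 2 * (rk S p).card +
      (if Even (od S p).card then 1 else 0)) :=
    sum_le_sum (fun p hp => by
      have := index hS hp
      convert this)
  rw [sum_const, smul_eq_mul, sum_add_distrib, sum_add_distrib, ← mul_sum, ← mul_sum, e1,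
    ← e3] at e4
  omega

end plane

end Pool.Agent.Dirac86.KM
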