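import Mathlib
import Pool.Agent.Dirac86.Cols

/-!
# Summation over the cyclic sequence of the columns
-/

set_option autoImplicit false
set_option linter.unusedSectionVars false
open Finset Classical

namespace Pool.Agent.Dirac86

open Pool.Agent.Dirac80 (Lin Ln mem_Ln icp icp_zero icp_lt icp_b)
open Pool.Agent.Dirac80b

variable {ι : Type*} [Fintype ι]

/-- correction of a column -/
def corr (n s : ℕ) : ℕ := (if s = 1 then 2 else 0) + (if Even n ∧ Odd s ∧ 3 ≤ s then 1 else 0)

theorem all_case {C : ι → ι → ι → Prop} {O : ι} {u v : ι → ℝ} (ch : Chart C O u v)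
    (hcol : ∃ i j, i ≠ O ∧ j ≠ O ∧ u i ≠ u j) :
    Fintype.card ι - 1 ≤ ∑ i ∈ univ.erase O, ebad C i (off O u i)
      + ∑ c ∈ (univ.erase O).image u, corr (Fintype.card ι) (colm O u c).card := by
  obtain ⟨n, hnd⟩ : ∃ n, n = Fintype.card ι := ⟨_, rfl⟩
  rw [← hnd]
  set J : Finset ι := univ.erase O with hJ
  set U : Finset ℝ := J.image u with hU
  have memJ : ∀ i, i ∈ J ↔ i ≠ O := by intro i; simp [hJ]
  set E : ℝ → ℕ := fun c => ∑ i ∈ colm O u c, ebad C i (off O u i) with hE
  set L : ℝ → ℕ := fun c => corr n (colm O u c).card with hL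
  have Fpos : ∀ c ∈ U, 1 ≤ (colm O u c).card := by
    intro c hc
    rw [hU, mem_image] at hc
    obtain ⟨i, hi, hic⟩ := hc
    rw [Nat.one_le_iff_ne_zero, ← Nat.pos_iff_ne_zero, card_pos]
    exact ⟨i, mem_colm.mpr ⟨(memJ i).mp hi, hic⟩⟩
  -- sums over columns
  have sumJ : ∑ c ∈ U, E c = ∑ i ∈ J, ebad C i (off O u i) := by
    simp only [hE, colm, ← hJ]
    exact Finset.sum_fiberwise_of_maps_to (fun i hi => mem_image_of_mem u hi) _
  have cardJ : ∑ c ∈ U, (colm O u c).card = J.card := by
    rw [Finset.card_eq_sum_card_fiberwise (f := u) (t := U)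
      (fun i hi => by exact_mod_cast mem_image_of_mem u hi)]
    rfl
  have cardJ' : J.card = n - 1 := by
    rw [hJ, card_erase_of_mem (mem_univ O), card_univ, hnd]
  -- parity at one point
  have hpar : ∀ c, ∀ i ∈ colm O u c, Even (ebad C i (off O u i) + (colm O u c).card + 1 + n) := by
    intro c i hi
    rw [mem_colm] at hi
    have h2 := ch.par hi.1
    rw [hi.2, ← hnd] at h2
    exact h2
  have big : ∀ c, Odd ((colm O u c).card + 1 + n) → (colm O u c).card ≤ E c := by
    intro c hc
    have := Finset.card_nsmul_le_sum (colm O u c) (fun i => ebad C i (off O u i)) 1 (by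
      intro i hi
      have h1 := hpar c i hi
      by_contra hcon
      have h3 : ebad C i (off O u i) = 0 := by omega
      rw [h3] at h1
      obtain ⟨a, ha⟩ := h1
      obtain ⟨b, hb⟩ := hc
      omega)
    simpa using this
  have evn : ∀ c, Even ((colm O u c).card + 1 + n) → ∀ i ∈ colm O u c,
      Even (ebad C i (off O u i)) := by
    intro c hc i hi
    obtain ⟨a, ha⟩ := hpar c i hi
    obtain ⟨b, hb⟩ := hc
    exact ⟨a - b, by omega⟩
  have Epar : Odd n → ∀ c, Even (E c + (colm O u c).card) := by
    intro hn c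
    have h1 : Even (∑ i ∈ colm O u c, (ebad C i (off O u i) + (colm O u c).card)) := by
      refine Finset.even_sum _ (fun i hi => ?_)
      obtain ⟨a, ha⟩ := hpar c i hi
      obtain ⟨b, hb⟩ := hn
      exact ⟨a - b - 1, by omega⟩
    rw [sum_add_distrib, sum_const, smul_eq_mul] at h1
    have h2 : Even ((colm O u c).card * (colm O u c).card + (colm O u c).card) := by
      have := Nat.even_mul_succ_self (colm O u c).card
      rw [Nat.mul_succ] at this
      exact this
    obtain ⟨a, ha⟩ := h1
    obtain ⟨b, hb⟩ := h2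
    have h3 : E c = ∑ i ∈ colm O u c, ebad C i (off O u i) := rfl
    rw [← h3] at ha
    exact ⟨a + b - (colm O u c).card * (colm O u c).card, by omega⟩
  -- one column with a single point
  have single : ∀ c ∈ U, ∀ d ∈ U, c ≠ d →
      (∃ η : ℝ, η ≠ 0 ∧ ∀ w, w ≠ O → u w ≠ c → u w ≠ d → 0 < η * ((u w - c) * (u w - d))) →
      (colm O u d).card = 1 →
      (colm O u c).card + (colm O u d).card ≤ (E c + L c) + (E d + L d) := by
    rintro c hc d hd hcd ⟨η, hη, hvb⟩ ht
    have hs := Fpos c hc
    obtain ⟨b, hb⟩ := card_eq_one.mp ht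
    have hEd : E d = ebad C b (off O u b) := by simp only [hE, hb, sum_singleton]
    have hLd : 2 ≤ L d := by
      show 2 ≤ corr n (colm O u d).card
      rw [ht]; unfold corr; simp
    have hmain : Even ((colm O u c).card + 1 + n) → (colm O u c).card - 1 ≤ E c + E d := by
      intro he
      have := cols_one ch hcd hη hvb hs (b := b) (by rw [hb]; exact mem_singleton_self b)
        (evn c he)
      rw [hEd]
      exact this
    rcases Nat.even_or_odd ((colm O u c).card + 1 + n) with he | ho
    · have := hmain he; omega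
    · have := big c ho; omega
  -- two adjacent columns
  have adj' : ∀ c ∈ U, ∀ d ∈ U, c ≠ d →
      (∀ γ ∈ U, ∀ δ ∈ U, γ ≠ c → γ ≠ d → δ ≠ c → δ ≠ d →
        0 < ((γ - c) * (γ - d)) * ((δ - c) * (δ - d))) →
      (colm O u c).card + (colm O u d).card ≤ (E c + L c) + (E d + L d) := by
    intro c hc d hd hcd hsep
    have hs := Fpos c hc
    have ht := Fpos d hd
    have hη : ∃ η : ℝ, η ≠ 0 ∧
        ∀ w, w ≠ O → u w ≠ c → u w ≠ d → 0 < η * ((u w - c) * (u w - d)) := by
      by_cases hw : ∃ w, w ≠ O ∧ u w ≠ c ∧ u w ≠ d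
      · obtain ⟨w0, h0, h1, h2⟩ := hw
        refine ⟨(u w0 - c) * (u w0 - d),
          mul_ne_zero (sub_ne_zero.mpr h1) (sub_ne_zero.mpr h2), ?_⟩
        intro w g0 g1 g2
        exact hsep (u w0) (mem_image_of_mem u ((memJ w0).mpr h0)) (u w)
          (mem_image_of_mem u ((memJ w).mpr g0)) h1 h2 g1 g2
      · refine ⟨1, one_ne_zero, ?_⟩
        intro w g0 g1 g2
        exact absurd ⟨w, g0, g1, g2⟩ hw
    by_cases t1 : (colm O u d).card = 1
    · exact single c hc d hd hcd hη t1
    by_cases s1 : (colm O u c).card = 1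
    · have := single d hd c hc hcd.symm (by
        obtain ⟨η, h1, h2⟩ := hη
        refine ⟨η, h1, fun w g0 g1 g2 => ?_⟩
        rw [mul_comm (u w - d)]
        exact h2 w g0 g2 g1) s1
      omega
    obtain ⟨η, h1, h2⟩ := hη
    have hmain := cols_two ch hcd h1 h2 (by omega) (by omega)
    have hmain' : 2 * ((colm O u c).card / 2) + 2 * ((colm O u d).card / 2) ≤ E c + E d := hmain
    rcases Nat.even_or_odd n with hn | hn
    · -- `n` even
      have hl : ∀ c ∈ U, (colm O u c).card ≠ 1 →
          (colm O u c).card ≤ 2 * ((colm O u c).card / 2) + L c := by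
        intro c hc hc1
        have := Fpos c hc
        have hLc : L c = corr n (colm O u c).card := rfl
        rcases Nat.even_or_odd (colm O u c).card with h | h
        · obtain ⟨k, hk⟩ := h; omega
        · have h3 : 3 ≤ (colm O u c).card := by obtain ⟨k, hk⟩ := h; omega
          rw [hLc]
          unfold corr
          rw [if_neg hc1, if_pos ⟨hn, h, h3⟩]
          omega
      have g1 := hl c hc s1
      have g2 := hl d hd t1
      omega
    · -- `n` odd
      obtain ⟨a, ha⟩ := Epar hn c
      obtain ⟨b, hb⟩ := Epar hn d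
      rcases Nat.even_or_odd (colm O u c).card with hs' | hs'
      · obtain ⟨k, hk⟩ := hs'
        omega
      · rcases Nat.even_or_odd (colm O u d).card with ht' | ht'
        · obtain ⟨k, hk⟩ := ht'
          omega
        · have g1 := big c (by
            obtain ⟨p, hp⟩ := hs'; obtain ⟨q, hq⟩ := hn; exact ⟨p + q + 1, by omega⟩)
          have g2 := big d (by
            obtain ⟨p, hp⟩ := ht'; obtain ⟨q, hq⟩ := hn; exact ⟨p + q + 1, by omega⟩)
          omega
  -- at least two columns
  have hM : 2 ≤ U.card := by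
    obtain ⟨i, j, hi, hj, hij⟩ := hcol
    have : 1 < U.card := one_lt_card.mpr ⟨u i, mem_image_of_mem u ((memJ i).mpr hi), u j,
      mem_image_of_mem u ((memJ j).mpr hj), hij⟩
    omega
  -- cyclic summation
  obtain ⟨m, hm⟩ : ∃ m, U.card = m + 1 := ⟨U.card - 1, by omega⟩
  set f : Fin (m + 1) ↪o ℝ := U.orderEmbOfFin hm with hf
  have fmem : ∀ k, f k ∈ U := fun k => orderEmbOfFin_mem U hm k
  have fsurj : ∀ c ∈ U, ∃ k, f k = c := by
    intro c hc
    have : c ∈ Set.range f := by rw [hf, range_orderEmbOfFin]; exact_mod_cast hc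
    exact this
  have sumf : ∀ g : ℝ → ℕ, ∑ k, g (f k) = ∑ c ∈ U, g c := by
    intro g
    have : U = (univ : Finset (Fin (m + 1))).map f.toEmbedding := by
      ext c
      simp only [mem_map, mem_univ, true_and]
      constructor
      · intro hc; obtain ⟨k, hk⟩ := fsurj c hc; exact ⟨k, hk⟩
      · rintro ⟨k, hk⟩; rw [← hk]; exact fmem k
    rw [this, sum_map]
    rfl
  have sumf' : ∀ g : ℝ → ℕ, ∑ k, g (f (finRotate (m + 1) k)) = ∑ c ∈ U, g c := by
    intro g
    rw [← sumf g]
    exact Equiv.sum_comp (finRotate (m + 1)) (fun k => g (f k))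
  have hm1 : 1 ≤ m := by omega
  have loc : ∀ k : Fin (m + 1),
      (colm O u (f k)).card + (colm O u (f (finRotate (m + 1) k))).card ≤
      (E (f k) + L (f k)) + (E (f (finRotate (m + 1) k)) + L (f (finRotate (m + 1) k))) := by
    intro k
    by_cases hk : k = Fin.last m
    · subst hk
      rw [finRotate_last]
      have hlt : (0 : Fin (m + 1)) < Fin.last m := by
        rw [Fin.lt_def, Fin.val_zero, Fin.val_last]; omega
      refine adj' _ (fmem _) _ (fmem _) (fun h => by
        have := f.injective h; rw [this] at hlt; exact lt_irrefl _ hlt) ?_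
      intro γ hγ δ hδ g1 g2 d1 d2
      have key : ∀ γ ∈ U, γ ≠ f (Fin.last m) → γ ≠ f 0 →
          (γ - f (Fin.last m)) * (γ - f 0) < 0 := by
        intro γ hγ g1 g2
        obtain ⟨l, rfl⟩ := fsurj γ hγ
        have l1 : f l < f (Fin.last m) :=
          lt_of_le_of_ne (f.monotone (Fin.le_last l)) g1
        have l2 : f 0 < f l := lt_of_le_of_ne (f.monotone (Fin.zero_le l)) (Ne.symm g2)
        exact mul_neg_of_neg_of_pos (by linarith) (by linarith)
      exact mul_pos_of_neg_of_neg (key γ hγ g1 g2) (key δ hδ d1 d2)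
    · have hk' : k.val < m := by
        have := Fin.lt_last_iff_ne_last.mpr hk
        rw [Fin.lt_def] at this
        simpa using this
      have hr : finRotate (m + 1) k = ⟨k.val + 1, by omega⟩ := by
        rw [finRotate_apply]
        apply Fin.ext
        rw [Fin.val_add_one_of_lt (Fin.lt_last_iff_ne_last.mpr hk)]
      rw [hr]
      have hlt : k < (⟨k.val + 1, by omega⟩ : Fin (m + 1)) := by
        rw [Fin.lt_def]; simp
      refine adj' _ (fmem _) _ (fmem _) (fun h => by
        have := f.injective h; rw [← this] at hlt; exact lt_irrefl _ hlt) ?_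
      intro γ hγ δ hδ g1 g2 d1 d2
      have key : ∀ γ ∈ U, γ ≠ f k → γ ≠ f ⟨k.val + 1, by omega⟩ →
          0 < (γ - f k) * (γ - f ⟨k.val + 1, by omega⟩) := by
        intro γ hγ g1 g2
        obtain ⟨l, rfl⟩ := fsurj γ hγ
        have l1 : l ≠ k := fun h => g1 (by rw [h])
        have l2 : l ≠ ⟨k.val + 1, by omega⟩ := fun h => g2 (by rw [h])
        have hkk := f.strictMono hlt
        rcases lt_or_gt_of_ne l1 with h | h
        · have := f.strictMono h
          exact mul_pos_of_neg_of_neg (by linarith) (by linarith)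
        · have h' : (⟨k.val + 1, by omega⟩ : Fin (m + 1)) < l := by
            rw [Fin.lt_def]
            rw [Fin.lt_def] at h
            have : l.val ≠ k.val + 1 := fun h' => l2 (Fin.ext h')
            simp only
            omega
          have := f.strictMono h'
          exact mul_pos (by linarith) (by linarith)
      exact mul_pos (key γ hγ g1 g2) (key δ hδ d1 d2)
  have hsum := Finset.sum_le_sum (fun k (_ : k ∈ (univ : Finset (Fin (m + 1)))) => loc k)
  simp only [sum_add_distrib] at hsum
  rw [sumf (fun c => (colm O u c).card), sumf' (fun c => (colm O u c).card), sumf E, sumf L,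
    sumf' E, sumf' L, cardJ, cardJ', sumJ] at hsum
  have hLs : ∑ c ∈ U, L c = ∑ c ∈ U, corr n (colm O u c).card := rfl
  rw [← hLs]
  omega

end Pool.Agent.Dirac86
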