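import Mathlib
import Pool.Agent.Dirac80.Defs
import Pool.Agent.Dirac80.Parity
import Pool.Agent.Dirac80.EvenC
import Pool.Agent.Dirac86.Plane

/-!
# Ordinary lines of sets with one even-rich line, or with a pencil of even-rich lines
-/

set_option autoImplicit false
open Finset

namespace Pool.Agent.Dirac86

open Pool.Agent.Dirac80 (connectingLines mem_connecting)
open Pool.Agent.Dirac80b (two_mul_ordinary even_main even_all)

/-- Ordinary lines, and the even-rich lines on and off a point of the set. -/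
theorem pencil (S : Finset (EuclideanSpace ℝ (Fin 2)))
    (hS : ¬ Collinear ℝ (S : Set (EuclideanSpace ℝ (Fin 2))))
    (o : EuclideanSpace ℝ (Fin 2)) (ho : o ∈ S) :
    S.card ≤ 1 +
      2 * {T : Finset (EuclideanSpace ℝ (Fin 2)) | T ⊆ S ∧ T.card = 2 ∧
            ∀ r ∈ S, r ∈ affineSpan ℝ (T : Set (EuclideanSpace ℝ (Fin 2))) → r ∈ T}.ncard +
        ∑ T ∈ (connectingLines S).filter (fun T => 4 ≤ T.card ∧ Even T.card ∧ o ∉ T), T.card +
        (if Even S.card then
          ((connectingLines S).filter (fun T => 4 ≤ T.card ∧ Even T.card ∧ o ∈ T)).card else 0) := by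
  have h1 := star_new S hS ho
  have e0 : (if Even S.card then
      ((connectingLines S).filter (fun T => 4 ≤ T.card ∧ Even T.card ∧ o ∈ T)).card else 0) =
      ∑ T ∈ connectingLines S,
        (if Even S.card ∧ 4 ≤ T.card ∧ Even T.card ∧ o ∈ T then 1 else 0) := by
    by_cases h : Even S.card
    · rw [if_pos h, card_eq_sum_ones, sum_filter]
      exact sum_congr rfl (fun T _ => by simp only [h, true_and])
    · rw [if_neg h]
      simp [h]
  rw [e0]
  rw [sum_filter, sum_filter, ← sum_add_distrib] at h1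
  rw [two_mul_ordinary S, sum_filter, add_assoc, add_assoc, ← sum_add_distrib,
    ← sum_add_distrib]
  refine le_trans (by omega : S.card ≤ 1 + (S.card - 1)) (Nat.add_le_add_left
    (h1.trans (Finset.sum_le_sum (fun T hT => ?_))) 1)
  have h2 := (mem_connecting.mp hT).2.1
  by_cases hoT : o ∈ T
  · rw [if_neg (fun h => h.2 hoT), if_pos hoT, zero_add]
    unfold corr
    have e1 : (if T.card - 1 = 1 then 2 else 0) = (if T.card = 2 then 2 else 0) := by
      by_cases h : T.card = 2
      · rw [if_pos h, if_pos (by omega)]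
      · rw [if_neg h, if_neg (by omega)]
    rw [e1]
    have e2 : (if Even S.card ∧ Odd (T.card - 1) ∧ 3 ≤ T.card - 1 then 1 else 0) ≤
        (if Even S.card ∧ 4 ≤ T.card ∧ Even T.card ∧ o ∈ T then 1 else 0) := by
      by_cases h : Even S.card ∧ Odd (T.card - 1) ∧ 3 ≤ T.card - 1
      · rw [if_pos h, if_pos]
        refine ⟨h.1, by omega, ?_, hoT⟩
        obtain ⟨a, ha⟩ := h.2.1
        exact ⟨a + 1, by omega⟩
      · rw [if_neg h]; exact Nat.zero_le _
    omega
  · rw [if_neg hoT, add_zero]
    by_cases hev : Even T.card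
    · rw [if_pos ⟨hev, hoT⟩]
      by_cases h4 : 4 ≤ T.card
      · rw [if_pos (⟨h4, hev, hoT⟩ : 4 ≤ T.card ∧ Even T.card ∧ o ∉ T)]; omega
      · obtain ⟨a, ha⟩ := hev
        have : T.card = 2 := by omega
        rw [if_pos this]; omega
    · rw [if_neg (fun h => hev h.1)]; exact Nat.zero_le _

/-- Dirac's bound up to the lines with an even number `≥ 4` of points, one of which need not be
counted. -/
theorem one_even (S : Finset (EuclideanSpace ℝ (Fin 2)))
    (hS : ¬ Collinear ℝ (S : Set (EuclideanSpace ℝ (Fin 2))))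
    (A : Finset (EuclideanSpace ℝ (Fin 2))) :
    2 * (S.card / 2) ≤
      2 * {T : Finset (EuclideanSpace ℝ (Fin 2)) | T ⊆ S ∧ T.card = 2 ∧
            ∀ r ∈ S, r ∈ affineSpan ℝ (T : Set (EuclideanSpace ℝ (Fin 2))) → r ∈ T}.ncard +
        ∑ T ∈ (connectingLines S).filter (fun T => 4 ≤ T.card ∧ Even T.card ∧ T ≠ A), T.card := by
  rcases Nat.even_or_odd S.card with he | ho
  · rw [two_mul_ordinary S, sum_filter, ← sum_add_distrib]
    by_cases hA : A ∈ connectingLines S ∧ Even A.card ∧ 4 ≤ A.card
    · have h1 := even_main S he hS hA.1 hA.2.1 hA.2.2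
      rw [sum_filter] at h1
      refine le_trans (by omega) (h1.trans (Finset.sum_le_sum (fun T _ => ?_)))
      by_cases h2 : Even T.card ∧ T ≠ A
      · rw [if_pos h2]
        by_cases h3 : T.card = 2
        · rw [if_pos h3, h3]; omega
        · by_cases h4 : 4 ≤ T.card
          · rw [if_pos (⟨h4, h2⟩ : 4 ≤ T.card ∧ Even T.card ∧ T ≠ A)]; omega
          · obtain ⟨a, ha⟩ := h2.1
            have : T.card = 0 := by omega
            rw [this]; exact Nat.zero_le _
      · rw [if_neg h2]; exact Nat.zero_le _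
    · have h1 := even_all S he
      rw [sum_filter] at h1
      refine le_trans (by omega) (h1.trans (Finset.sum_le_sum (fun T hT => ?_)))
      by_cases h2 : Even T.card
      · rw [if_pos h2]
        by_cases h3 : T.card = 2
        · rw [if_pos h3, h3]; omega
        · by_cases h4 : 4 ≤ T.card
          · rw [if_pos (⟨h4, h2, fun h => hA ⟨h ▸ hT, h ▸ h2, h ▸ h4⟩⟩ :
              4 ≤ T.card ∧ Even T.card ∧ T ≠ A)]; omega
          · obtain ⟨a, ha⟩ := h2
            have : T.card = 0 := by omega
            rw [this]; exact Nat.zero_le _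
      · rw [if_neg h2]; exact Nat.zero_le _
  · -- the point `o`
    obtain ⟨o, ho', hoA⟩ : ∃ o ∈ S, ∀ T ∈ connectingLines S,
        (4 ≤ T.card ∧ Even T.card ∧ o ∉ T) → T ≠ A := by
      by_cases hA : A ∈ connectingLines S
      · have hAc := mem_connecting.mp hA
        have hne : A.Nonempty := card_pos.mp (by omega)
        obtain ⟨o, hoA⟩ := hne
        exact ⟨o, hAc.1 hoA, fun T _ h hTA => h.2.2 (hTA ▸ hoA)⟩
      · have hne : S.Nonempty := card_pos.mp (by obtain ⟨a, ha⟩ := ho; omega)
        obtain ⟨o, hoS⟩ := hne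
        exact ⟨o, hoS, fun T hT _ hTA => hA (hTA ▸ hT)⟩
    have h1 := pencil S hS o ho'
    rw [if_neg (Nat.not_even_iff_odd.mpr ho), add_zero] at h1
    have h2 : ∑ T ∈ (connectingLines S).filter (fun T => 4 ≤ T.card ∧ Even T.card ∧ o ∉ T),
        T.card ≤
        ∑ T ∈ (connectingLines S).filter (fun T => 4 ≤ T.card ∧ Even T.card ∧ T ≠ A), T.card := by
      refine Finset.sum_le_sum_of_subset ?_
      intro T hT
      rw [mem_filter] at hT ⊢
      exact ⟨hT.1, hT.2.1, hT.2.2.1, hoA T hT.1 hT.2⟩
    obtain ⟨a, ha⟩ := ho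
    omega

end Pool.Agent.Dirac86
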